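import Pool.Agent.Helper7.NU.Hdy

/-!
Module HarA: consequence of the integral inequality in the Type I case.
-/

open MeasureTheory Set Filter Topology

namespace Pool.Agent.Helper7.NU

/-- the weight is integrable -/
theorem harA_w {a t : ℝ} (hat : a ≤ t) :
    IntegrableOn (fun s => (t - s) ^ (-(3 / 4) : ℝ)) (Ioo a t) := by
  have h1 : IntervalIntegrable (fun x : ℝ => x ^ (-(3 / 4) : ℝ)) volume 0 (t - a) :=
    intervalIntegral.intervalIntegrable_rpow' (by norm_num)
  have h2 := h1.comp_sub_left t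
  simp only [sub_zero, sub_sub_cancel] at h2
  have h3 := (intervalIntegrable_iff_integrableOn_Ioc_of_le hat).1 h2.symm
  exact h3.mono_set Ioo_subset_Ioc_self

theorem harA_w_int {a t : ℝ} (hat : a ≤ t) :
    ∫ s in Ioo a t, (t - s) ^ (-(3 / 4) : ℝ) = 4 * (t - a) ^ ((1 / 4) : ℝ) := by
  rw [← integral_Ioc_eq_integral_Ioo, ← intervalIntegral.integral_of_le hat,
    intervalIntegral.integral_comp_sub_left (fun x => x ^ (-(3 / 4) : ℝ)) t,
    integral_rpow (Or.inl (by norm_num))]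
  have h1 : (-(3 / 4) : ℝ) + 1 = 1 / 4 := by norm_num
  rw [h1, sub_self, Real.zero_rpow (by norm_num)]
  ring

/-- a sequence argument: doubling at some scale -/
theorem harA_scale {G : ℝ → ℝ} {t ℓ : ℝ} (hℓ : 0 < ℓ)
    (hG : ∀ h, 0 < h → h ≤ ℓ → h ≤ G (t - h)) :
    ∃ h, 0 < h ∧ h ≤ ℓ ∧ G (t - h) ≤ 4 * G (t - h / 2) := by
  by_contra hcon
  push Not at hcon
  have h1 : ∀ i : ℕ, G (t - ℓ / 2 ^ i) * 4 ^ i ≤ G (t - ℓ) := by
    intro i
    induction i with
    | zero => simp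
    | succ i ih =>
      have h2 := hcon (ℓ / 2 ^ i) (by positivity) (div_le_self hℓ.le (one_le_pow₀ one_le_two))
      have h3 : ℓ / 2 ^ i / 2 = ℓ / 2 ^ (i + 1) := by
        rw [div_div, pow_succ]
      rw [h3] at h2
      calc G (t - ℓ / 2 ^ (i + 1)) * 4 ^ (i + 1)
          = (4 * G (t - ℓ / 2 ^ (i + 1))) * 4 ^ i := by rw [pow_succ]; ring
        _ ≤ G (t - ℓ / 2 ^ i) * 4 ^ i := by gcongr
        _ ≤ _ := ih
  obtain ⟨i, hi⟩ := pow_unbounded_of_one_lt (G (t - ℓ) / ℓ) (one_lt_two (α := ℝ))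
  have h4 := hG (ℓ / 2 ^ i) (by positivity) (div_le_self hℓ.le (one_le_pow₀ one_le_two))
  have h5 : ℓ * 2 ^ i ≤ G (t - ℓ) := by
    calc ℓ * 2 ^ i = ℓ / 2 ^ i * 4 ^ i := by
          have : (4 : ℝ) ^ i = 2 ^ i * 2 ^ i := by
            rw [← mul_pow]
            norm_num
          rw [this]
          field_simp
      _ ≤ G (t - ℓ / 2 ^ i) * 4 ^ i := by gcongr
      _ ≤ _ := h1 i
  rw [div_lt_iff₀ hℓ] at hi
  linarith

theorem har_a {T t : ℝ} (ht : 0 < t) (htT : t ≤ T) {φ α g : ℝ → ℝ}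
    (hα : IntegrableOn α (Icc 0 T)) (h0 : ∀ τ, 0 ≤ α τ) (hg : IntegrableOn g (Icc 0 T))
    (hg1 : ∀ τ, 1 + α τ ≤ g τ) {K δ C : ℝ} (hδ : 0 < δ) (hC : 0 ≤ C)
    (hφm : AEStronglyMeasurable φ (volume.restrict (Icc 0 T))) (hφ0 : ∀ s, 0 ≤ φ s)
    (hφK : ∀ s ∈ Icc 0 T, φ s ≤ K)
    (hineq : ∀ᵐ s ∂(volume.restrict (Icc 0 T)), s ∈ Ioo (t - δ) t →
      φ s ≤ C * ((∫ τ in s..t, g τ) + (t - s) * α s) + 1 / 16 * wm φ s t) :
    ∃ M : ℝ, ∀ δ' : ℝ, 0 < δ' → ∃ s ∈ Ioo (t - δ') t, 0 ≤ s ∧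
      φ s ≤ M * ∫ τ in s..t, g τ := by
  refine ⟨54 * C + 1, fun δ' hδ' => ?_⟩
  by_contra hcon
  push Not at hcon
  -- facts on the primitive
  have hg0 : ∀ τ, 1 ≤ g τ := fun τ => by have := hg1 τ; have := h0 τ; linarith
  have gI : ∀ p q, 0 ≤ p → p ≤ q → q ≤ t → IntervalIntegrable g volume p q := by
    intro p q hp hpq hq
    refine (intervalIntegrable_iff_integrableOn_Ioc_of_le hpq).2 (hg.mono_set ?_)
    intro x hx
    exact ⟨hp.trans hx.1.le, (hx.2.trans hq).trans htT⟩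
  set G : ℝ → ℝ := fun s => ∫ τ in s..t, g τ with hG
  have hGge : ∀ s, 0 ≤ s → s ≤ t → t - s ≤ G s := by
    intro s hs hst
    have h1 : ∫ _τ in s..t, (1 : ℝ) ≤ ∫ τ in s..t, g τ :=
      intervalIntegral.integral_mono_on hst intervalIntegrable_const (gI s t hs hst le_rfl)
        fun x _ => hg0 x
    simpa using h1
  have hGanti : ∀ p q, 0 ≤ p → p ≤ q → q ≤ t → G q ≤ G p := by
    intro p q hp hpq hq
    have h1 := intervalIntegral.integral_add_adjacent_intervals (gI p q hp hpq hq)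
      (gI q t (hp.trans hpq) hq le_rfl)
    have h2 : 0 ≤ ∫ τ in p..q, g τ :=
      intervalIntegral.integral_nonneg hpq fun x _ => by have := hg0 x; linarith
    simp only [hG]
    linarith
  -- the scale
  set ℓ := min δ (min δ' t) / 2 with hℓ
  have hmin : 0 < min δ (min δ' t) := by positivity
  have hℓ0 : 0 < ℓ := by positivity
  have hℓ1 : ℓ < δ := by
    have := min_le_left δ (min δ' t)
    linarith
  have hℓ2 : ℓ < δ' := by
    have := (min_le_right δ (min δ' t)).trans (min_le_left _ _)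
    linarith
  have hℓ3 : ℓ < t := by
    have := (min_le_right δ (min δ' t)).trans (min_le_right _ _)
    linarith
  obtain ⟨h, hh0, hhℓ, hscale⟩ := harA_scale (G := G) (t := t) hℓ0 (by
    intro h hh hhl
    have := hGge (t - h) (by linarith) (by linarith)
    linarith)
  set a := t - h with ha
  have ha0 : 0 ≤ a := by linarith
  have hat : a < t := by linarith
  have hta : t - a = h := by rw [ha]; ring
  have hsub : Ioo a t ⊆ Icc 0 T := fun x hx => ⟨ha0.trans hx.1.le, hx.2.le.trans htT⟩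
  have hGm : 0 < G (t - h / 2) := by
    have := hGge (t - h / 2) (by linarith) (by linarith)
    linarith
  set Gm := G (t - h / 2) with hGmdef
  have hwI := harA_w hat.le
  -- integrability
  have hGmeas : AEStronglyMeasurable G (volume.restrict (Ioo a t)) := by
    have h1 : AntitoneOn G (Ioo a t) := fun p hp q hq hpq =>
      hGanti p q (ha0.trans hp.1.le) hpq hq.2.le
    exact (aemeasurable_restrict_of_antitoneOn measurableSet_Ioo h1).aestronglyMeasurable
  have hI1 : IntegrableOn (fun s => (t - s) ^ (-(3 / 4) : ℝ) * G s) (Ioo a t) := by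
    refine Integrable.mul_bdd (c := G a) hwI hGmeas ?_
    rw [ae_restrict_iff' measurableSet_Ioo]
    refine Eventually.of_forall fun s hs => ?_
    have h1 := hGge s (ha0.trans hs.1.le) hs.2.le
    have h2 : 0 ≤ G s := by have := hs.2; linarith
    rw [Real.norm_of_nonneg h2]
    exact hGanti a s ha0 hs.1.le hs.2.le
  have hαI : IntegrableOn α (Ioo a t) := hα.mono_set hsub
  have hpos : ∀ s ∈ Ioo a t, 0 < t - s ∧ t - s ≤ h := by
    intro s hs
    have := hs.1
    have := hs.2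
    constructor <;> linarith
  have hI2 : IntegrableOn (fun s => (t - s) ^ (-(3 / 4) : ℝ) * ((t - s) * α s)) (Ioo a t) := by
    have h1 : IntegrableOn (fun s => (t - s) ^ ((1 / 4) : ℝ) * α s) (Ioo a t) := by
      refine Integrable.bdd_mul (c := h ^ ((1 / 4) : ℝ)) hαI ?_ ?_
      · have : Measurable fun s : ℝ => (t - s) ^ ((1 / 4) : ℝ) := by fun_prop
        exact this.aestronglyMeasurable
      · rw [ae_restrict_iff' measurableSet_Ioo]
        refine Eventually.of_forall fun s hs => ?_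
        obtain ⟨h2, h3⟩ := hpos s hs
        rw [Real.norm_of_nonneg (by positivity)]
        exact Real.rpow_le_rpow h2.le h3 (by norm_num)
    refine h1.congr_fun (fun s hs => ?_) measurableSet_Ioo
    obtain ⟨h2, h3⟩ := hpos s hs
    show (t - s) ^ ((1 / 4) : ℝ) * α s = (t - s) ^ (-(3 / 4) : ℝ) * ((t - s) * α s)
    rw [← mul_assoc, ← Real.rpow_add_one h2.ne']
    norm_num
  have hR : IntegrableOn (fun s => (t - s) ^ (-(3 / 4) : ℝ) * (C * (G s + (t - s) * α s)))
      (Ioo a t) := by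
    have h1 : IntegrableOn (fun s => C * ((t - s) ^ (-(3 / 4) : ℝ) * G s +
        (t - s) ^ (-(3 / 4) : ℝ) * ((t - s) * α s))) (Ioo a t) := (hI1.add hI2).const_mul C
    refine h1.congr_fun (fun s _ => ?_) measurableSet_Ioo
    show C * ((t - s) ^ (-(3 / 4) : ℝ) * G s + (t - s) ^ (-(3 / 4) : ℝ) * ((t - s) * α s)) =
      (t - s) ^ (-(3 / 4) : ℝ) * (C * (G s + (t - s) * α s))
    ring
  have hφm' : AEStronglyMeasurable φ (volume.restrict (Ioo a t)) := hφm.mono_set hsub
  have hφI : IntegrableOn (fun s => (t - s) ^ (-(3 / 4) : ℝ) * φ s) (Ioo a t) := by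
    refine Integrable.mul_bdd (c := K) hwI hφm' ?_
    rw [ae_restrict_iff' measurableSet_Ioo]
    refine Eventually.of_forall fun s hs => ?_
    rw [Real.norm_of_nonneg (hφ0 s)]
    exact hφK s (hsub hs)
  have hhardy := hardy hat hφm' (fun s _ => hφ0 s) (fun s hs => hφK s (hsub hs)) hR (by
    have h1 := ae_restrict_of_ae_restrict_of_subset hsub hineq
    have h2 : ∀ᵐ s ∂(volume.restrict (Ioo a t)), s ∈ Ioo a t :=
      ae_restrict_mem measurableSet_Ioo
    filter_upwards [h1, h2] with s hs1 hs2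
    exact hs1 ⟨by have := hs2.1; linarith, hs2.2⟩)
  rw [intervalIntegral.integral_of_le hat.le, intervalIntegral.integral_of_le hat.le,
    integral_Ioc_eq_integral_Ioo, integral_Ioc_eq_integral_Ioo] at hhardy
  have hh4 : 0 < h ^ ((1 / 4) : ℝ) := Real.rpow_pos_of_pos hh0 _
  -- upper bound
  have hup : ∫ s in Ioo a t, (t - s) ^ (-(3 / 4) : ℝ) * (C * (G s + (t - s) * α s)) ≤
      C * (4 * h ^ ((1 / 4) : ℝ) * G a + h ^ ((1 / 4) : ℝ) * G a) := by
    have e1 : ∫ s in Ioo a t, (t - s) ^ (-(3 / 4) : ℝ) * (C * (G s + (t - s) * α s)) =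
        C * ((∫ s in Ioo a t, (t - s) ^ (-(3 / 4) : ℝ) * G s) +
          ∫ s in Ioo a t, (t - s) ^ (-(3 / 4) : ℝ) * ((t - s) * α s)) := by
      rw [← integral_add hI1 hI2, ← integral_const_mul]
      refine setIntegral_congr_fun measurableSet_Ioo fun s _ => ?_
      show (t - s) ^ (-(3 / 4) : ℝ) * (C * (G s + (t - s) * α s)) =
        C * ((t - s) ^ (-(3 / 4) : ℝ) * G s + (t - s) ^ (-(3 / 4) : ℝ) * ((t - s) * α s))
      ring
    have e2 : ∫ s in Ioo a t, (t - s) ^ (-(3 / 4) : ℝ) * G s ≤ 4 * h ^ ((1 / 4) : ℝ) * G a := by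
      have h1 := setIntegral_mono_on hI1 (hwI.mul_const (G a)) measurableSet_Ioo (fun s hs => by
        have h2 := (hpos s hs).1
        have h3 : 0 ≤ (t - s) ^ (-(3 / 4) : ℝ) := by positivity
        exact mul_le_mul_of_nonneg_left (hGanti a s ha0 hs.1.le hs.2.le) h3)
      refine h1.trans (le_of_eq ?_)
      rw [integral_mul_const, harA_w_int hat.le, hta]
    have e3 : ∫ s in Ioo a t, (t - s) ^ (-(3 / 4) : ℝ) * ((t - s) * α s) ≤
        h ^ ((1 / 4) : ℝ) * G a := by
      have gI' : IntegrableOn g (Ioo a t) := hg.mono_set hsub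
      have h1 := setIntegral_mono_on hI2 (gI'.const_mul (h ^ ((1 / 4) : ℝ))) measurableSet_Ioo
        (fun s hs => by
          obtain ⟨h2, h3⟩ := hpos s hs
          have h4 : (t - s) ^ (-(3 / 4) : ℝ) * ((t - s) * α s) = (t - s) ^ ((1 / 4) : ℝ) * α s := by
            rw [← mul_assoc, ← Real.rpow_add_one h2.ne']
            norm_num
          rw [h4]
          have h5 : (t - s) ^ ((1 / 4) : ℝ) ≤ h ^ ((1 / 4) : ℝ) :=
            Real.rpow_le_rpow h2.le h3 (by norm_num)
          have h6 : α s ≤ g s := by have := hg1 s; linarith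
          exact mul_le_mul h5 h6 (h0 s) hh4.le)
      refine h1.trans (le_of_eq ?_)
      rw [integral_const_mul, ← integral_Ioc_eq_integral_Ioo, ← intervalIntegral.integral_of_le hat.le]
    rw [e1]
    exact mul_le_mul_of_nonneg_left (add_le_add e2 e3) hC
  -- lower bound
  have hlow : h / 2 * (h ^ (-(3 / 4) : ℝ) * ((54 * C + 1) * Gm)) ≤
      ∫ s in Ioo a t, (t - s) ^ (-(3 / 4) : ℝ) * φ s := by
    have hsub2 : Ioo a (t - h / 2) ⊆ Ioo a t := Ioo_subset_Ioo_right (by linarith)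
    have e1 : ∫ s in Ioo a (t - h / 2), (t - s) ^ (-(3 / 4) : ℝ) * φ s ≤
        ∫ s in Ioo a t, (t - s) ^ (-(3 / 4) : ℝ) * φ s := by
      refine setIntegral_mono_set hφI ?_ (Eventually.of_forall hsub2)
      rw [EventuallyLE, ae_restrict_iff' measurableSet_Ioo]
      refine Eventually.of_forall fun s hs => ?_
      have h2 := (hpos s hs).1
      have h3 := hφ0 s
      simp only [Pi.zero_apply]
      positivity
    have e2 : ∫ _s in Ioo a (t - h / 2), (h ^ (-(3 / 4) : ℝ) * ((54 * C + 1) * Gm)) ≤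
        ∫ s in Ioo a (t - h / 2), (t - s) ^ (-(3 / 4) : ℝ) * φ s := by
      refine setIntegral_mono_on (integrable_const _) (hφI.mono_set hsub2) measurableSet_Ioo ?_
      intro s hs
      have hs' := hsub2 hs
      obtain ⟨h2, h3⟩ := hpos s hs'
      have h4 : h ^ (-(3 / 4) : ℝ) ≤ (t - s) ^ (-(3 / 4) : ℝ) :=
        Real.rpow_le_rpow_of_nonpos h2 h3 (by norm_num)
      have h5 : (54 * C + 1) * Gm ≤ φ s := by
        have h6 := hcon s ⟨by have := hs'.1; linarith, hs'.2⟩ (ha0.trans hs'.1.le)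
        have h7 : Gm ≤ G s := hGanti s (t - h / 2) (ha0.trans hs'.1.le) hs.2.le (by linarith)
        have h8 : (54 * C + 1) * Gm ≤ (54 * C + 1) * G s := by gcongr
        exact h8.trans h6.le
      exact mul_le_mul h4 h5 (by positivity) (by positivity)
    refine le_trans (le_of_eq ?_) (e2.trans e1)
    rw [setIntegral_const]
    simp only [smul_eq_mul]
    congr 1
    rw [Measure.real, Real.volume_Ioo, ENNReal.toReal_ofReal (by linarith)]
    rw [ha]
    ring
  have hpow : h / 2 * (h ^ (-(3 / 4) : ℝ) * ((54 * C + 1) * Gm)) =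
      h ^ ((1 / 4) : ℝ) * ((54 * C + 1) * Gm / 2) := by
    have : h ^ ((1 / 4) : ℝ) = h ^ (-(3 / 4) : ℝ) * h := by
      rw [← Real.rpow_add_one hh0.ne']
      norm_num
    rw [this]
    ring
  rw [hpow] at hlow
  have hfin : h ^ ((1 / 4) : ℝ) * ((54 * C + 1) * Gm / 2) ≤
      h ^ ((1 / 4) : ℝ) * (4 / 3 * (C * (5 * G a))) := by
    refine hlow.trans (hhardy.trans ?_)
    calc 4 / 3 * ∫ s in Ioo a t, (t - s) ^ (-(3 / 4) : ℝ) * (C * (G s + (t - s) * α s))
        ≤ 4 / 3 * (C * (4 * h ^ ((1 / 4) : ℝ) * G a + h ^ ((1 / 4) : ℝ) * G a)) := by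
          exact mul_le_mul_of_nonneg_left hup (by norm_num)
      _ = _ := by ring
  have hfin2 := le_of_mul_le_mul_left hfin hh4
  have hfin3 : C * G a ≤ C * (4 * Gm) := mul_le_mul_of_nonneg_left hscale hC
  have hCG : 0 ≤ C * Gm := mul_nonneg hC hGm.le
  nlinarith

end Pool.Agent.Helper7.NU
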