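import Pool.Agent.Helper7.NU.Hdy

/-!
Module HarB: consequence of the integral inequality, with rates.
-/

open MeasureTheory Set Filter Topology

namespace Pool.Agent.Helper7.NU

/-- Powers of the distance to the right end are integrable. -/
theorem har_b_pow {a t p : ℝ} (hat : a < t) (hp : -1 < p) :
    IntegrableOn (fun s => (t - s) ^ p) (Ioo a t) ∧
      ∫ s in Ioo a t, (t - s) ^ p = (t - a) ^ (p + 1) / (p + 1) := by
  have h1 : IntervalIntegrable (fun x : ℝ => x ^ p) volume (t - a) (t - t) :=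
    intervalIntegral.intervalIntegrable_rpow' hp
  have h2 := h1.comp_sub_left t
  rw [sub_sub_cancel, sub_sub_cancel] at h2
  constructor
  · have h3 := (intervalIntegrable_iff_integrableOn_Ioc_of_le hat.le).1 h2
    exact h3.mono_set Ioo_subset_Ioc_self
  · rw [← integral_Ioc_eq_integral_Ioo, ← intervalIntegral.integral_of_le hat.le,
      intervalIntegral.integral_comp_sub_left (fun x => x ^ p) t, sub_self,
      integral_rpow (Or.inl hp), Real.zero_rpow (by linarith), sub_zero]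

theorem har_b {T t : ℝ} (ht : 0 < t) (htT : t ≤ T) {φ α ρ : ℝ → ℝ}
    (hα : IntegrableOn α (Icc 0 T)) (h0 : ∀ τ, 0 ≤ α τ) (hρ : IntegrableOn ρ (Icc 0 T))
    (hρ0 : ∀ τ, 0 ≤ ρ τ) {K δ C M β κ : ℝ} (hδ : 0 < δ) (hC : 0 ≤ C) (hM : 0 ≤ M)
    (hβ0 : 0 < β) (hβ : β ≤ 1 / 2) (hκ0 : 0 ≤ κ) (hκ : κ ≤ 1 / 5)
    (hφm : AEStronglyMeasurable φ (volume.restrict (Icc 0 T))) (hφ0 : ∀ s, 0 ≤ φ s)
    (hφK : ∀ s ∈ Icc 0 T, φ s ≤ K)
    (hE : ∀ s ∈ Ioo (t - δ) t, 0 ≤ s → ∫ τ in s..t, α τ ≤ M * (t - s) ^ (β + κ))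
    (hF : ∀ s ∈ Ioo (t - δ) t, 0 ≤ s → ∫ τ in s..t, ρ τ ≤ M * (t - s) ^ β)
    (hineq : ∀ᵐ s ∂(volume.restrict (Icc 0 T)), s ∈ Ioo (t - δ) t →
      φ s ≤ C * (∫ τ in s..t, ρ τ) +
        C * (1 + (t - s) ^ (-κ)) * ((∫ τ in s..t, α τ) + (t - s) * α s) +
        1 / 16 * wm φ s t) :
    ∃ M' δ' : ℝ, 0 < δ' ∧ ∀ r : ℝ, 0 < r → r < δ' → ∃ s ∈ Ioo (t - 2 * r) (t - r), 0 ≤ s ∧
      φ s ≤ M' * r ^ β := by
  refine ⟨76 * C * M + 1, min (1 / 2) (min (δ / 2) (t / 2)), by positivity, ?_⟩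
  intro r hr0 hr
  have hr1 : r < 1 / 2 := hr.trans_le (min_le_left _ _)
  have hr2 : r < δ / 2 := hr.trans_le ((min_le_right _ _).trans (min_le_left _ _))
  have hr3 : r < t / 2 := hr.trans_le ((min_le_right _ _).trans (min_le_right _ _))
  set a : ℝ := t - 2 * r with ha
  have ha0 : 0 < a := by rw [ha]; linarith
  have hat : a < t := by rw [ha]; linarith
  have htadef : t - a = 2 * r := by rw [ha]; ring
  have hsub : Ioo a t ⊆ Icc 0 T := fun s hs => ⟨by linarith [hs.1], by linarith [hs.2]⟩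
  have hδs : ∀ s ∈ Ioo a t, s ∈ Ioo (t - δ) t := fun s hs => ⟨by
    have := hs.1
    rw [ha] at this
    linarith, hs.2⟩
  by_contra hcon
  push Not at hcon
  -- the function `R`
  set R : ℝ → ℝ := fun s => C * (∫ τ in s..t, ρ τ) +
        C * (1 + (t - s) ^ (-κ)) * ((∫ τ in s..t, α τ) + (t - s) * α s) with hRdef
  have hαI : IntegrableOn α (Icc a t) := hα.mono_set fun s hs => ⟨by linarith [hs.1], by
    linarith [hs.2]⟩
  have hρI : IntegrableOn ρ (Icc a t) := hρ.mono_set fun s hs => ⟨by linarith [hs.1], by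
    linarith [hs.2]⟩
  have hEm : AEStronglyMeasurable (fun s => ∫ τ in s..t, α τ) (volume.restrict (Ioo a t)) := by
    have h1 : ContinuousOn (fun s => ∫ τ in s..t, α τ) (uIcc a t) :=
      intervalIntegral.continuousOn_primitive_interval_left (by rwa [uIcc_of_le hat.le])
    rw [uIcc_of_le hat.le] at h1
    exact (h1.mono Ioo_subset_Icc_self).aestronglyMeasurable measurableSet_Ioo
  have hFm : AEStronglyMeasurable (fun s => ∫ τ in s..t, ρ τ) (volume.restrict (Ioo a t)) := by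
    have h1 : ContinuousOn (fun s => ∫ τ in s..t, ρ τ) (uIcc a t) :=
      intervalIntegral.continuousOn_primitive_interval_left (by rwa [uIcc_of_le hat.le])
    rw [uIcc_of_le hat.le] at h1
    exact (h1.mono Ioo_subset_Icc_self).aestronglyMeasurable measurableSet_Ioo
  have hpm : ∀ p : ℝ, Measurable fun s : ℝ => (t - s) ^ p := fun p =>
    (measurable_const.sub measurable_id).pow_const p
  have hαm : AEStronglyMeasurable α (volume.restrict (Ioo a t)) :=
    (hαI.mono_set Ioo_subset_Icc_self).aestronglyMeasurable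
  have hRm : AEStronglyMeasurable R (volume.restrict (Ioo a t)) := by
    rw [hRdef]
    refine (hFm.const_mul C).add (AEStronglyMeasurable.mul ?_ (hEm.add ?_))
    · exact (((measurable_const.add (hpm (-κ))).const_mul C)).aestronglyMeasurable
    · exact (measurable_const.sub measurable_id).aestronglyMeasurable.mul hαm
  -- the majorant
  set Mj : ℝ → ℝ := fun s => 3 * C * M * (t - s) ^ (β - 3 / 4) +
    2 * C * (2 * r) ^ (1 / 4 - κ) * α s with hMj
  obtain ⟨hpI, hpV⟩ := har_b_pow (a := a) (t := t) (p := β - 3 / 4) hat (by linarith)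
  have hMjI : IntegrableOn Mj (Ioo a t) :=
    (hpI.const_mul _).add ((hαI.mono_set Ioo_subset_Icc_self).const_mul _)
  have hEnn : ∀ s ∈ Ioo a t, 0 ≤ ∫ τ in s..t, α τ := fun s hs =>
    intervalIntegral.integral_nonneg hs.2.le fun τ _ => h0 τ
  have hFnn : ∀ s ∈ Ioo a t, 0 ≤ ∫ τ in s..t, ρ τ := fun s hs =>
    intervalIntegral.integral_nonneg hs.2.le fun τ _ => hρ0 τ
  have hRnn : ∀ s ∈ Ioo a t, 0 ≤ R s := by
    intro s hs
    have hh : 0 < t - s := by linarith [hs.2]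
    have h1 := hEnn s hs
    have h2 := hFnn s hs
    have h3 := h0 s
    rw [hRdef]
    positivity
  have hRle : ∀ s ∈ Ioo a t, (t - s) ^ (-(3 / 4) : ℝ) * R s ≤ Mj s := by
    intro s hs
    have hh : 0 < t - s := by linarith [hs.2]
    have hh2 : t - s ≤ 2 * r := by
      have := hs.1
      rw [ha] at this
      linarith
    have hh1 : t - s ≤ 1 := by linarith
    have h1 := hE s (hδs s hs) (by linarith [hs.1])
    have h2 := hF s (hδs s hs) (by linarith [hs.1])
    have h3 : 1 ≤ (t - s) ^ (-κ) :=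
      Real.one_le_rpow_of_pos_of_le_one_of_nonpos hh hh1 (by linarith)
    have h4 : (t - s) ^ (1 / 4 - κ) ≤ (2 * r) ^ (1 / 4 - κ) :=
      Real.rpow_le_rpow hh.le hh2 (by linarith)
    have hα0 := h0 s
    have hR1 : R s ≤ C * (M * (t - s) ^ β) +
        C * (2 * (t - s) ^ (-κ)) * (M * (t - s) ^ (β + κ) + (t - s) * α s) := by
      rw [hRdef]
      simp only []
      have h5 := hEnn s hs
      gcongr
      linarith
    have e1 : (t - s) ^ (-(3 / 4) : ℝ) * (t - s) ^ β = (t - s) ^ (β - 3 / 4) := by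
      rw [← Real.rpow_add hh]
      congr 1
      ring
    have e2 : (t - s) ^ (-(3 / 4) : ℝ) * ((t - s) ^ (-κ) * (t - s) ^ (β + κ)) =
        (t - s) ^ (β - 3 / 4) := by
      rw [← Real.rpow_add hh, ← Real.rpow_add hh]
      congr 1
      ring
    have e3 : (t - s) ^ (-(3 / 4) : ℝ) * ((t - s) ^ (-κ) * (t - s)) = (t - s) ^ (1 / 4 - κ) := by
      nth_rewrite 3 [← Real.rpow_one (t - s)]
      rw [← Real.rpow_add hh, ← Real.rpow_add hh]
      congr 1
      ring
    calc (t - s) ^ (-(3 / 4) : ℝ) * R s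
        ≤ (t - s) ^ (-(3 / 4) : ℝ) * (C * (M * (t - s) ^ β) +
          C * (2 * (t - s) ^ (-κ)) * (M * (t - s) ^ (β + κ) + (t - s) * α s)) :=
          mul_le_mul_of_nonneg_left hR1 (Real.rpow_nonneg hh.le _)
      _ = C * M * ((t - s) ^ (-(3 / 4) : ℝ) * (t - s) ^ β) +
          2 * C * M * ((t - s) ^ (-(3 / 4) : ℝ) * ((t - s) ^ (-κ) * (t - s) ^ (β + κ))) +
          2 * C * ((t - s) ^ (-(3 / 4) : ℝ) * ((t - s) ^ (-κ) * (t - s))) * α s := by ring
      _ = 3 * C * M * (t - s) ^ (β - 3 / 4) + 2 * C * (t - s) ^ (1 / 4 - κ) * α s := by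
          rw [e1, e2, e3]
          ring
      _ ≤ Mj s := by
          rw [hMj]
          simp only []
          gcongr
  have hRI : IntegrableOn (fun s => (t - s) ^ (-(3 / 4) : ℝ) * R s) (Ioo a t) := by
    refine Integrable.mono' hMjI ((hpm _).aestronglyMeasurable.mul hRm) ?_
    refine (ae_restrict_iff' measurableSet_Ioo).2 (Eventually.of_forall fun s hs => ?_)
    rw [Real.norm_eq_abs, abs_of_nonneg (mul_nonneg (Real.rpow_nonneg (by linarith [hs.2]) _)
      (hRnn s hs))]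
    exact hRle s hs
  -- Hardy
  have hres : volume.restrict (Ioo a t) ≤ volume.restrict (Icc 0 T) :=
    Measure.restrict_mono hsub le_rfl
  have hH := hardy (a := a) (t := t) (K := K) hat (φ := φ) (R := R) (hφm.mono_measure hres)
    (fun s _ => hφ0 s) (fun s hs => hφK s (hsub hs)) hRI (by
      have h1 := ae_mono hres hineq
      filter_upwards [h1, ae_restrict_mem measurableSet_Ioo] with s hs hs'
      exact hs (hδs s hs'))
  rw [intervalIntegral.integral_of_le hat.le, intervalIntegral.integral_of_le hat.le,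
    integral_Ioc_eq_integral_Ioo, integral_Ioc_eq_integral_Ioo] at hH
  -- upper bound
  have hup : ∫ s in Ioo a t, (t - s) ^ (-(3 / 4) : ℝ) * R s ≤ 14 * C * M * (2 * r) ^ (β + 1 / 4) := by
    have h1 : ∫ s in Ioo a t, (t - s) ^ (-(3 / 4) : ℝ) * R s ≤ ∫ s in Ioo a t, Mj s :=
      setIntegral_mono_on hRI hMjI measurableSet_Ioo hRle
    have h2 : ∫ s in Ioo a t, Mj s = 3 * C * M * (∫ s in Ioo a t, (t - s) ^ (β - 3 / 4)) +
        2 * C * (2 * r) ^ (1 / 4 - κ) * (∫ s in Ioo a t, α s) := by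
      rw [hMj, integral_add (hpI.const_mul _)
        ((hαI.mono_set Ioo_subset_Icc_self).const_mul _), integral_const_mul, integral_const_mul]
    have h3 : ∫ s in Ioo a t, α s ≤ M * (2 * r) ^ (β + κ) := by
      have h3a : a ∈ Ioo (t - δ) t := ⟨by rw [ha]; linarith, hat⟩
      have h3b := hE a h3a ha0.le
      rwa [intervalIntegral.integral_of_le hat.le, integral_Ioc_eq_integral_Ioo, htadef] at h3b
    have h4 : (2 * r) ^ (1 / 4 - κ) * (2 * r) ^ (β + κ) = (2 * r) ^ (β + 1 / 4) := by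
      rw [← Real.rpow_add (by positivity)]
      congr 1
      ring
    have h5 : ∫ s in Ioo a t, (t - s) ^ (β - 3 / 4) ≤ 4 * (2 * r) ^ (β + 1 / 4) := by
      rw [hpV, htadef, div_le_iff₀ (by linarith)]
      have h6 : β - 3 / 4 + 1 = β + 1 / 4 := by ring
      rw [h6]
      have h7 : 0 ≤ (2 * r) ^ (β + 1 / 4) := by positivity
      nlinarith
    calc ∫ s in Ioo a t, (t - s) ^ (-(3 / 4) : ℝ) * R s ≤ ∫ s in Ioo a t, Mj s := h1
      _ = 3 * C * M * (∫ s in Ioo a t, (t - s) ^ (β - 3 / 4)) +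
        2 * C * (2 * r) ^ (1 / 4 - κ) * (∫ s in Ioo a t, α s) := h2
      _ ≤ 3 * C * M * (4 * (2 * r) ^ (β + 1 / 4)) +
        2 * C * (2 * r) ^ (1 / 4 - κ) * (M * (2 * r) ^ (β + κ)) :=
          add_le_add (mul_le_mul_of_nonneg_left h5 (by positivity))
            (mul_le_mul_of_nonneg_left h3 (by positivity))
      _ = 12 * C * M * (2 * r) ^ (β + 1 / 4) +
        2 * C * M * ((2 * r) ^ (1 / 4 - κ) * (2 * r) ^ (β + κ)) := by ring
      _ = 14 * C * M * (2 * r) ^ (β + 1 / 4) := by rw [h4]; ring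
  -- lower bound
  obtain ⟨hqI, -⟩ := har_b_pow (a := a) (t := t) (p := -(3 / 4)) hat (by norm_num)
  have hφI : IntegrableOn (fun s => (t - s) ^ (-(3 / 4) : ℝ) * φ s) (Ioo a t) := by
    refine Integrable.mono' (hqI.mul_const K) ((hpm _).aestronglyMeasurable.mul
      (hφm.mono_measure hres)) ?_
    refine (ae_restrict_iff' measurableSet_Ioo).2 (Eventually.of_forall fun s hs => ?_)
    have h1 : 0 ≤ (t - s) ^ (-(3 / 4) : ℝ) := Real.rpow_nonneg (by linarith [hs.2]) _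
    rw [Real.norm_eq_abs, abs_of_nonneg (mul_nonneg h1 (hφ0 s))]
    exact mul_le_mul_of_nonneg_left (hφK s (hsub hs)) h1
  have hlo : (2 * r) ^ (-(3 / 4) : ℝ) * ((76 * C * M + 1) * r ^ β) * r ≤
      ∫ s in Ioo a t, (t - s) ^ (-(3 / 4) : ℝ) * φ s := by
    have h1 : ∫ s in Ioo a (t - r), (t - s) ^ (-(3 / 4) : ℝ) * φ s ≤
        ∫ s in Ioo a t, (t - s) ^ (-(3 / 4) : ℝ) * φ s := by
      refine setIntegral_mono_set hφI ?_ ?_
      · refine (ae_restrict_iff' measurableSet_Ioo).2 (Eventually.of_forall fun s hs => ?_)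
        exact mul_nonneg (Real.rpow_nonneg (by linarith [hs.2]) _) (hφ0 s)
      · exact Eventually.of_forall fun s hs => ⟨hs.1, by linarith [hs.2]⟩
    refine le_trans ?_ h1
    have h2 : IntegrableOn (fun s => (t - s) ^ (-(3 / 4) : ℝ) * φ s) (Ioo a (t - r)) :=
      hφI.mono_set fun s hs => ⟨hs.1, by linarith [hs.2]⟩
    have h3 : ∀ s ∈ Ioo a (t - r), (2 * r) ^ (-(3 / 4) : ℝ) * ((76 * C * M + 1) * r ^ β) ≤
        (t - s) ^ (-(3 / 4) : ℝ) * φ s := by
      intro s hs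
      have hh : 0 < t - s := by linarith [hs.2]
      have hh2 : t - s ≤ 2 * r := by
        have := hs.1
        rw [ha] at this
        linarith
      refine mul_le_mul ?_ (hcon s hs (by linarith [hs.1])).le (by positivity)
        (Real.rpow_nonneg hh.le _)
      exact Real.rpow_le_rpow_of_nonpos hh hh2 (by norm_num)
    have h4 := setIntegral_ge_of_const_le measurableSet_Ioo (by simp) h3 h2
    refine le_trans (le_of_eq ?_) h4
    rw [Real.volume_real_Ioo_of_le (by rw [ha]; linarith), ha]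
    ring
  -- contradiction
  have h7 : (2 * r) ^ (-(3 / 4) : ℝ) * r ^ β * r = 2 ^ (-(3 / 4) : ℝ) * r ^ (β + 1 / 4) := by
    rw [Real.mul_rpow (by norm_num) hr0.le, mul_assoc, mul_assoc]
    congr 1
    nth_rewrite 3 [← Real.rpow_one r]
    rw [← Real.rpow_add hr0, ← Real.rpow_add hr0]
    congr 1
    ring
  have h8 : (2 * r) ^ (β + 1 / 4) = 2 ^ (β + 1 / 4) * r ^ (β + 1 / 4) :=
    Real.mul_rpow (by norm_num) hr0.le
  have h9 : (1 : ℝ) / 2 ≤ 2 ^ (-(3 / 4) : ℝ) := by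
    have := Real.rpow_le_rpow_of_exponent_le (x := 2) (by norm_num)
      (show (-1 : ℝ) ≤ -(3 / 4) by norm_num)
    rw [Real.rpow_neg_one] at this
    linarith
  have h10 : (2 : ℝ) ^ (β + 1 / 4) ≤ 2 := by
    have := Real.rpow_le_rpow_of_exponent_le (x := 2) (by norm_num)
      (show β + 1 / 4 ≤ (1 : ℝ) by linarith)
    rwa [Real.rpow_one] at this
  have hX : 0 < r ^ (β + 1 / 4) := Real.rpow_pos_of_pos hr0 _
  have hCM : 0 ≤ C * M := mul_nonneg hC hM
  have h11 : (76 * C * M + 1) * (1 / 2 * r ^ (β + 1 / 4)) ≤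
      (2 * r) ^ (-(3 / 4) : ℝ) * ((76 * C * M + 1) * r ^ β) * r := by
    have : (2 * r) ^ (-(3 / 4) : ℝ) * ((76 * C * M + 1) * r ^ β) * r =
        (76 * C * M + 1) * ((2 * r) ^ (-(3 / 4) : ℝ) * r ^ β * r) := by ring
    rw [this, h7]
    have h12 : 0 ≤ 76 * C * M + 1 := by nlinarith
    gcongr
  have h13 : 4 / 3 * (14 * C * M * (2 * r) ^ (β + 1 / 4)) ≤
      38 * (C * M) * r ^ (β + 1 / 4) := by
    rw [h8]
    have h14 : C * M * (2 ^ (β + 1 / 4) * r ^ (β + 1 / 4)) ≤ C * M * (2 * r ^ (β + 1 / 4)) := by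
      gcongr
    nlinarith [mul_nonneg hCM hX.le]
  have h15 : 4 / 3 * ∫ s in Ioo a t, (t - s) ^ (-(3 / 4) : ℝ) * R s ≤
      4 / 3 * (14 * C * M * (2 * r) ^ (β + 1 / 4)) := by linarith
  nlinarith [mul_nonneg hCM hX.le]

end Pool.Agent.Helper7.NU
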