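import Pool.Agent.Helper7.NU.Defs
import Pool.Agent.Helper7.NT.Vsp

/-!
Module Vms: measurability and boundedness in time; the weight `(t - τ)^(-1/2)`.
-/

open MeasureTheory Set Filter Topology
open scoped ENNReal

namespace Pool.Agent.Helper7.NU

open Pool.Agent.Helper52.NSE Pool.Agent.Helper7.NT

variable {Ω : Set E3} {ν T : ℝ} {u₀ : E3 → E3} {f u : ℝ → E3 → E3} {G : ℝ → Fin 3 → E3 → E3}

theorem nmsq_meas (h : IsWeakSolution Ω ν T u₀ f u G) {a : E3 → E3}
    (ha : MemLp a 2 (volume.restrict Ω)) :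
    AEStronglyMeasurable (fun τ => nm Ω (fun x => u τ x - a x) ^ 2)
      (volume.restrict (Icc 0 T)) := by
  have h1 : AEStronglyMeasurable (fun q : ℝ × E3 => a q.2)
      ((volume.restrict (Icc 0 T)).prod (volume.restrict Ω)) := ha.1.comp_snd
  have h2 : AEStronglyMeasurable (fun q : ℝ × E3 => ‖u q.1 q.2 - a q.2‖ ^ 2)
      ((volume.restrict (Icc 0 T)).prod (volume.restrict Ω)) := (h.meas.sub h1).norm.pow 2
  have h3 := h2.integral_prod_right'
  refine h3.congr (ae_of_all _ fun τ => ?_)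
  exact (nm_sq Ω _).symm

theorem Vms_sub_le {g a : E3 → E3} (hg : MemLp g 2 (volume.restrict Ω))
    (ha : MemLp a 2 (volume.restrict Ω)) :
    nm Ω (fun x => g x - a x) ^ 2 ≤ 2 * nm Ω g ^ 2 + 2 * nm Ω a ^ 2 := by
  rw [nm_sq, nm_sq, nm_sq, ← integral_const_mul, ← integral_const_mul,
    ← integral_add ((sq_int hg).const_mul 2) ((sq_int ha).const_mul 2)]
  refine integral_mono (sq_int (hg.sub ha)) (((sq_int hg).const_mul 2).add
    ((sq_int ha).const_mul 2)) fun x => ?_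
  simp only
  have h1 := norm_sub_le (g x) (a x)
  have h2 := norm_nonneg (g x - a x)
  nlinarith [sq_nonneg (‖g x‖ - ‖a x‖), norm_nonneg (g x), norm_nonneg (a x)]

theorem nmsq_bdd (h : IsWeakSolution Ω ν T u₀ f u G) {a : E3 → E3}
    (ha : MemLp a 2 (volume.restrict Ω)) :
    ∃ K : ℝ, 0 ≤ K ∧ ∀ τ ∈ Icc 0 T, nm Ω (fun x => u τ x - a x) ^ 2 ≤ K := by
  obtain ⟨K, hK⟩ := h.bound
  refine ⟨2 * |K| + 2 * nm Ω a ^ 2, by positivity, fun τ hτ => ?_⟩
  refine (Vms_sub_le (h.mem τ hτ).memLp ha).trans ?_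
  have h1 : nm Ω (u τ) ^ 2 ≤ |K| := by
    rw [nm_sq]
    exact (hK τ hτ).trans (le_abs_self K)
  linarith

theorem Vms_rpow_int {s t r : ℝ} (hr : -1 < r) :
    IntervalIntegrable (fun τ : ℝ => (t - τ) ^ r) volume s t := by
  have h1 : IntervalIntegrable (fun x : ℝ => x ^ r) volume 0 (t - s) :=
    intervalIntegral.intervalIntegrable_rpow' hr
  have h2 : IntervalIntegrable (fun s : ℝ => (t - s) ^ r) volume (t - 0) (t - (t - s)) :=
    h1.comp_sub_left t
  rw [sub_zero, sub_sub_cancel] at h2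
  exact h2.symm

theorem weight_int {s t K : ℝ} (hst : s < t) {φ : ℝ → ℝ}
    (hφ : AEStronglyMeasurable φ (volume.restrict (Ioc s t)))
    (hK : ∀ τ ∈ Ioc s t, |φ τ| ≤ K) :
    IntervalIntegrable (fun τ => (t - τ) ^ (-(1 / 2) : ℝ) * φ τ) volume s t := by
  have h1 : IntervalIntegrable (fun τ : ℝ => (t - τ) ^ (-(1 / 2) : ℝ)) volume s t :=
    Vms_rpow_int (by norm_num)
  rw [intervalIntegrable_iff_integrableOn_Ioc_of_le hst.le] at h1 ⊢
  refine Integrable.mul_bdd (c := K) h1 hφ ?_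
  filter_upwards [ae_restrict_mem measurableSet_Ioc] with τ hτ
  rw [Real.norm_eq_abs]
  exact hK τ hτ

theorem weight_one {s t : ℝ} (hst : s < t) :
    (t - s) ^ (-(1 / 2) : ℝ) * ∫ τ in s..t, (t - τ) ^ (-(1 / 2) : ℝ) = 2 := by
  have hts : 0 < t - s := by linarith
  rw [intervalIntegral.integral_comp_sub_left (fun x : ℝ => x ^ (-(1 / 2) : ℝ)) t, sub_self,
    integral_rpow (Or.inl (by norm_num)), show (-(1 / 2) : ℝ) + 1 = 1 / 2 by norm_num,
    Real.zero_rpow (by norm_num), sub_zero, ← mul_div_assoc, ← Real.rpow_add hts]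
  norm_num

theorem Vms_c1 (h : IsWeakSolution Ω ν T u₀ f u G) (hT : 0 ≤ T) :
    ContinuousOn (fun t => ∫ τ in (0)..t, power Ω (f τ) (u τ)) (Icc 0 T) := by
  have := intervalIntegral.continuousOn_primitive_interval (μ := volume)
    (f := fun τ => power Ω (f τ) (u τ)) (a := 0) (b := T)
    (by rw [uIcc_of_le hT]; exact h.power_int)
  rwa [uIcc_of_le hT] at this

theorem Vms_c2 (h : IsWeakSolution Ω ν T u₀ f u G) (hT : 0 ≤ T) :
    ContinuousOn (fun t => ∫ τ in (0)..t, diss Ω ν (G τ)) (Icc 0 T) := by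
  have := intervalIntegral.continuousOn_primitive_interval (μ := volume)
    (f := fun τ => diss Ω ν (G τ)) (a := 0) (b := T)
    (by rw [uIcc_of_le hT]; exact h.diss_int)
  rwa [uIcc_of_le hT] at this

theorem defect_meas (h : IsWeakSolution Ω ν T u₀ f u G) :
    AEStronglyMeasurable (defect Ω ν f u G) (volume.restrict (Icc 0 T)) := by
  rcases lt_or_ge T 0 with hT | hT
  · rw [Icc_eq_empty (by linarith), Measure.restrict_empty]
    exact aestronglyMeasurable_zero_measure _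
  · have m1 := (Vms_c1 h hT).aestronglyMeasurable measurableSet_Icc (μ := volume)
    have m2 := (Vms_c2 h hT).aestronglyMeasurable measurableSet_Icc (μ := volume)
    have m3 : AEStronglyMeasurable (fun t => kin Ω (u t)) (volume.restrict (Icc 0 T)) := by
      have h2 : AEStronglyMeasurable (fun q : ℝ × E3 => ‖u q.1 q.2‖ ^ 2)
        ((volume.restrict (Icc 0 T)).prod (volume.restrict Ω)) := h.meas.norm.pow 2
      exact h2.integral_prod_right'.const_mul (1 / 2)
    exact (((aestronglyMeasurable_const (b := kin Ω (u 0))).add m1).sub m3).sub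
      (m2.const_mul (volume Ω).toReal)

theorem defect_bdd (h : IsWeakSolution Ω ν T u₀ f u G) :
    ∃ K : ℝ, 0 ≤ K ∧ ∀ t ∈ Icc 0 T, |defect Ω ν f u G t| ≤ K := by
  rcases lt_or_ge T 0 with hT | hT
  · exact ⟨0, le_rfl, fun t ht => absurd (ht.1.trans ht.2) (not_le.2 hT)⟩
  · obtain ⟨K, hK⟩ := h.bound
    obtain ⟨C1, hC1⟩ := isCompact_Icc.exists_bound_of_continuousOn (Vms_c1 h hT)
    obtain ⟨C2, hC2⟩ := isCompact_Icc.exists_bound_of_continuousOn (Vms_c2 h hT)
    have hkin : ∀ t ∈ Icc 0 T, |kin Ω (u t)| ≤ |K| := by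
      intro t ht
      have h1 := (hK t ht).trans (le_abs_self K)
      have h2 : 0 ≤ ∫ x in Ω, ‖u t x‖ ^ 2 := integral_nonneg fun x => by positivity
      unfold kin
      rw [abs_of_nonneg (by linarith)]
      linarith
    refine ⟨|K| + |C1| + |K| + (volume Ω).toReal * |C2|, by positivity, fun t ht => ?_⟩
    have e1 := hkin 0 ⟨le_rfl, hT⟩
    have e2 := hkin t ht
    have e3 := (hC1 t ht).trans (le_abs_self C1)
    have e4 := (hC2 t ht).trans (le_abs_self C2)
    rw [Real.norm_eq_abs] at e3 e4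
    have e5 : |(volume Ω).toReal * ∫ τ in (0)..t, diss Ω ν (G τ)| ≤ (volume Ω).toReal * |C2| := by
      rw [abs_mul, abs_of_nonneg ENNReal.toReal_nonneg]
      exact mul_le_mul_of_nonneg_left e4 ENNReal.toReal_nonneg
    unfold defect
    rw [abs_le] at e1 e2 e3 e5 ⊢
    constructor <;> linarith [e1.1, e1.2, e2.1, e2.2, e3.1, e3.2, e5.1, e5.2]

end Pool.Agent.Helper7.NU
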