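import Mathlib

/-!
Module Yng: Young's inequality in the form used for the flux.
-/

open Set

namespace Pool.Agent.Helper7.NU

theorem rpow_mix {θ X V : ℝ} (h0 : 0 ≤ θ) (h1 : θ ≤ 1 / 2) (hX : 0 ≤ X) (hV : 0 ≤ V) :
    X ^ (1 - θ) * V ^ θ ≤ X + Real.sqrt (X * V) := by
  rcases le_total V X with h | h
  · have e1 : V ^ θ ≤ X ^ θ := Real.rpow_le_rpow hV h h0
    have e2 : X ^ (1 - θ) * X ^ θ = X := by
      rw [← Real.rpow_add' hX (by norm_num), show 1 - θ + θ = 1 by ring, Real.rpow_one]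
    have e3 : X ^ (1 - θ) * V ^ θ ≤ X ^ (1 - θ) * X ^ θ :=
      mul_le_mul_of_nonneg_left e1 (Real.rpow_nonneg hX _)
    have e4 := Real.sqrt_nonneg (X * V)
    linarith
  · rcases hX.eq_or_lt with rfl | hX0
    · rw [Real.zero_rpow (by linarith)]
      simp
    · have hV0 : 0 < V := hX0.trans_le h
      have e1 : X ^ (1 / 2 - θ) ≤ V ^ (1 / 2 - θ) := Real.rpow_le_rpow hX h (by linarith)
      have e2 : X ^ (1 - θ) * V ^ θ = X ^ (1 / 2 : ℝ) * X ^ (1 / 2 - θ) * V ^ θ := by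
        rw [← Real.rpow_add hX0]
        congr 2
        ring
      have e3 : X ^ (1 / 2 : ℝ) * V ^ (1 / 2 - θ) * V ^ θ = Real.sqrt (X * V) := by
        rw [mul_assoc, ← Real.rpow_add hV0, Real.sqrt_eq_rpow, Real.mul_rpow hX hV]
        congr 2
        ring
      have e4 : X ^ (1 / 2 : ℝ) * X ^ (1 / 2 - θ) * V ^ θ ≤
          X ^ (1 / 2 : ℝ) * V ^ (1 / 2 - θ) * V ^ θ :=
        mul_le_mul_of_nonneg_right (mul_le_mul_of_nonneg_left e1 (Real.rpow_nonneg hX _))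
          (Real.rpow_nonneg hV _)
      linarith

theorem sqrt_young {C X V : ℝ} (hC : 0 ≤ C) (hX : 0 ≤ X) (hV : 0 ≤ V) :
    C * Real.sqrt (X * V) ≤ 16 * C ^ 2 * X + 1 / 64 * V := by
  rw [Real.sqrt_mul hX]
  have h1 := Real.sq_sqrt hX
  have h2 := Real.sq_sqrt hV
  nlinarith [sq_nonneg (4 * C * Real.sqrt X - 1 / 8 * Real.sqrt V)]

theorem young {C : ℝ} (hC : 0 ≤ C) : ∃ B : ℝ, 0 ≤ B ∧ ∀ θ X V : ℝ, 0 ≤ θ → θ ≤ 1 / 2 → 0 ≤ X →
    0 ≤ V → C * (X ^ (1 - θ) * V ^ θ) ≤ B * X + 1 / 64 * V := by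
  refine ⟨C + 16 * C ^ 2, by positivity, fun θ X V h0 h1 hX hV => ?_⟩
  have e1 := mul_le_mul_of_nonneg_left (rpow_mix h0 h1 hX hV) hC
  have e2 := sqrt_young hC hX hV
  linarith

end Pool.Agent.Helper7.NU
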