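import Pool.Agent.Helper7.NU.Defs
import Pool.Agent.Helper7.NU.Yng
import Pool.Agent.Helper7.NU.Vms
import Pool.Agent.Helper7.NT.HoS
import Pool.Agent.Helper7.NT.Sob
import Pool.Agent.Helper7.NT.Vsp

/-!
Module HoW: the bound for the flux from the order of a norm.
-/

open MeasureTheory Set Filter Topology
open scoped ENNReal

namespace Pool.Agent.Helper7.NU

open Pool.Agent.Helper52.NSE Pool.Agent.Helper7.NT

variable {Ω : Set E3} {ν T : ℝ} {u₀ : E3 → E3} {f u : ℝ → E3 → E3} {G : ℝ → Fin 3 → E3 → E3}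

/-- Hoelder's inequality with the exponents `1/2 - θ, θ, θ, 1/2 - θ` -/
theorem HoW_holder {μ : Measure ℝ} {θ : ℝ} (h0 : 0 ≤ θ) (h1 : θ ≤ 1 / 2) {W P Q : ℝ → ℝ≥0∞}
    (hW : AEMeasurable W μ) (hP : AEMeasurable P μ) (hQ : AEMeasurable Q μ) :
    ∫⁻ σ, W σ ^ θ * P σ ^ θ * Q σ ^ (1 / 2 - θ) ∂μ ≤
      (∫⁻ _, 1 ∂μ) ^ (1 / 2 - θ) * (∫⁻ σ, W σ ∂μ) ^ θ * (∫⁻ σ, P σ ∂μ) ^ θ *
        (∫⁻ σ, Q σ ∂μ) ^ (1 / 2 - θ) := by
  have h := ENNReal.lintegral_prod_norm_pow_le (μ := μ) (Finset.univ : Finset (Fin 4))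
    (f := ![fun _ => 1, W, P, Q]) (p := ![1 / 2 - θ, θ, θ, 1 / 2 - θ]) (by
      intro i _
      fin_cases i
      · exact aemeasurable_const
      · exact hW
      · exact hP
      · exact hQ) (by simp [Fin.sum_univ_four]; ring) (by
      intro i _
      fin_cases i
      · show (0 : ℝ) ≤ 1 / 2 - θ
        linarith
      · exact h0
      · exact h0
      · show (0 : ℝ) ≤ 1 / 2 - θ
        linarith)
  rw [Fin.prod_univ_four] at h
  simp only [Fin.prod_univ_four] at h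
  refine le_trans (le_of_eq ?_) h
  refine lintegral_congr fun σ => ?_
  show _ = (1 : ℝ≥0∞) ^ (1 / 2 - θ) * W σ ^ θ * P σ ^ θ * Q σ ^ (1 / 2 - θ)
  rw [ENNReal.one_rpow, one_mul]

/-- the exponents of `h` -/
theorem HoW_real {θ d V Y : ℝ} (hd : 0 < d) (hV : 0 ≤ V) :
    d ^ (1 / 2 - θ) * (2 * d ^ (1 / 2 : ℝ)) ^ θ * (d ^ (1 / 2 : ℝ) * V) ^ θ * Y =
      d ^ (1 / 2 : ℝ) * (2 ^ θ * V ^ θ * Y) := by
  have e1 : (2 * d ^ (1 / 2 : ℝ)) ^ θ = 2 ^ θ * d ^ (θ / 2) := by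
    rw [Real.mul_rpow (by norm_num) (by positivity), ← Real.rpow_mul hd.le]
    congr 2
    ring
  have e2 : (d ^ (1 / 2 : ℝ) * V) ^ θ = d ^ (θ / 2) * V ^ θ := by
    rw [Real.mul_rpow (by positivity) hV, ← Real.rpow_mul hd.le]
    congr 2
    ring
  have e3 : d ^ (1 / 2 : ℝ) = d ^ (1 / 2 - θ) * d ^ (θ / 2) * d ^ (θ / 2) := by
    rw [← Real.rpow_add hd, ← Real.rpow_add hd]
    congr 1
    ring
  rw [e1, e2]
  conv_rhs => rw [e3]
  ring

theorem flux_norm (hO : IsOpen Ω) (hb : Bornology.IsBounded Ω)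
    (h : IsWeakSolution Ω ν T u₀ f u G) {q : ℝ≥0∞} (hq : 3 ≤ q) {t : ℝ}
    (ht : t ∈ Ioc 0 T) (hR : NormOrder Ω u q t) :
    ∃ B δ : ℝ, 0 ≤ B ∧ 0 < δ ∧ FluxBound Ω u G 0 B δ t := by
  obtain ⟨CS, hCS0, hCS⟩ := sobolev hO hb
  obtain ⟨hth0, hth1⟩ := th_bounds hq
  obtain ⟨M, δ, hδ, hM⟩ := hR
  have hth : (1 - 3 / q.toReal) / 2 = th q := by
    unfold th
    rw [sub_div, div_div, mul_comm q.toReal 2]
  rw [hth] at hM
  set θ := th q with hθ
  set M' : ℝ := max M 0 with hM'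
  have hM'0 : 0 ≤ M' := le_max_right _ _
  obtain ⟨B, hB0, hB⟩ := young (C := 3 * M' * 2 ^ θ * (2 * CS ^ 2) ^ (1 / 2 - θ)) (by positivity)
  refine ⟨B, δ, hB0, hδ, ?_⟩
  intro s hs hs0 a A ha τ hτ
  have hst : s < t := hs.2
  have hts : 0 < t - s := by linarith
  have htT : t ≤ T := ht.2
  have hAm : ∀ i, MemLp (A i) 2 (volume.restrict Ω) := ha.grad_memLp
  have ham : MemLp a 2 (volume.restrict Ω) := ha.toL2.memLp
  have hsub : Ioo s t ⊆ Icc 0 T := fun x hx => ⟨hs0.trans hx.1.le, hx.2.le.trans htT⟩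
  have hsub' : Ioc s t ⊆ Icc 0 T := fun x hx => ⟨hs0.trans hx.1.le, hx.2.trans htT⟩
  have hsub'' : Ioo s t ⊆ Icc 0 t := fun x hx => ⟨hs0.trans hx.1.le, hx.2.le⟩
  set X : ℝ := (∫ σ in s..t, gsq Ω (G σ)) + (t - s) * gsq Ω A with hX
  set V : ℝ := VV Ω u a s t with hV
  have hIG : 0 ≤ ∫ σ in s..t, gsq Ω (G σ) :=
    intervalIntegral.integral_nonneg hst.le fun x _ => gsq_nonneg _ _
  have hX0 : 0 ≤ X := by
    have := mul_nonneg hts.le (gsq_nonneg Ω A)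
    linarith
  -- the factors
  set W : ℝ → ℝ≥0∞ := fun σ => ENNReal.ofReal ((t - σ) ^ (-(1 / 2) : ℝ)) with hWd
  set P : ℝ → ℝ≥0∞ := fun σ => ENNReal.ofReal
    ((t - σ) ^ (-(1 / 2) : ℝ) * nm Ω (fun x => u σ x - a x) ^ 2) with hPd
  set Q : ℝ → ℝ≥0∞ := fun σ =>
    ENNReal.ofReal (CS ^ 2 * (2 * gsq Ω (G σ) + 2 * gsq Ω A)) with hQd
  set K : ℝ≥0∞ := 3 * ENNReal.ofReal (Real.sqrt (gsq Ω A)) * ENNReal.ofReal M' with hK
  -- integrability
  have iW : IntervalIntegrable (fun τ => (t - τ) ^ (-(1 / 2) : ℝ)) volume s t := by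
    have := weight_int (φ := fun _ => 1) (K := 1) hst aestronglyMeasurable_const
      (fun τ _ => by simp)
    simpa using this
  obtain ⟨Kn, hKn0, hKn⟩ := nmsq_bdd h ham
  have iP : IntervalIntegrable
      (fun τ => (t - τ) ^ (-(1 / 2) : ℝ) * nm Ω (fun x => u τ x - a x) ^ 2) volume s t := by
    refine weight_int (K := Kn) hst ((nmsq_meas h ham).mono_measure
      (Measure.restrict_mono hsub' le_rfl)) (fun τ hτ => ?_)
    rw [abs_of_nonneg (sq_nonneg _)]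
    exact hKn τ (hsub' hτ)
  have iW' := iW.1.mono_set (Ioo_subset_Ioc_self : Ioo s t ⊆ Ioc s t)
  have iP' := iP.1.mono_set (Ioo_subset_Ioc_self : Ioo s t ⊆ Ioc s t)
  have hGint : IntegrableOn (fun σ => gsq Ω (G σ)) (Ioc s t) := h.gsq_int.mono_set hsub'
  have iQ' : IntegrableOn (fun σ => CS ^ 2 * (2 * gsq Ω (G σ) + 2 * gsq Ω A)) (Ioo s t) := by
    have h2 : IntegrableOn (fun _ : ℝ => 2 * gsq Ω A) (Ioo s t) := by
      rw [integrableOn_const_iff]
      right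
      rw [Real.volume_Ioo]
      exact ENNReal.ofReal_lt_top
    exact (((hGint.mono_set Ioo_subset_Ioc_self).const_mul 2).add h2).const_mul _
  have hWm : AEMeasurable W (volume.restrict (Ioo s t)) := iW'.1.aemeasurable.ennreal_ofReal
  have hPm : AEMeasurable P (volume.restrict (Ioo s t)) := iP'.1.aemeasurable.ennreal_ofReal
  have hQm : AEMeasurable Q (volume.restrict (Ioo s t)) := iQ'.1.aemeasurable.ennreal_ofReal
  have hpos : ∀ σ ∈ Ioo s t, 0 < t - σ := fun σ hσ => by linarith [hσ.2]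
  -- values of the integrals
  have vW : ∫⁻ σ in Ioo s t, W σ = ENNReal.ofReal (2 * (t - s) ^ (1 / 2 : ℝ)) := by
    rw [hWd, ← ofReal_integral_eq_lintegral_ofReal iW'
      (ae_restrict_of_forall_mem measurableSet_Ioo fun σ hσ =>
        Real.rpow_nonneg (hpos σ hσ).le _)]
    rw [← integral_Ioc_eq_integral_Ioo, ← intervalIntegral.integral_of_le hst.le]
    congr 1
    have h1 := weight_one hst
    have h2 : (t - s) ^ (1 / 2 : ℝ) * (t - s) ^ (-(1 / 2) : ℝ) = 1 := by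
      rw [← Real.rpow_add hts]
      norm_num
    have h3 : ∫ τ in s..t, (t - τ) ^ (-(1 / 2) : ℝ) = (t - s) ^ (1 / 2 : ℝ) *
        ((t - s) ^ (-(1 / 2) : ℝ) * ∫ τ in s..t, (t - τ) ^ (-(1 / 2) : ℝ)) := by
      rw [← mul_assoc, h2, one_mul]
    rw [h3, h1, mul_comm]
  have vP : ∫⁻ σ in Ioo s t, P σ = ENNReal.ofReal ((t - s) ^ (1 / 2 : ℝ) * V) := by
    rw [hPd, ← ofReal_integral_eq_lintegral_ofReal iP'
      (ae_restrict_of_forall_mem measurableSet_Ioo fun σ hσ =>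
        mul_nonneg (Real.rpow_nonneg (hpos σ hσ).le _) (sq_nonneg _))]
    rw [← integral_Ioc_eq_integral_Ioo, ← intervalIntegral.integral_of_le hst.le]
    congr 1
    have h2 : (t - s) ^ (1 / 2 : ℝ) * (t - s) ^ (-(1 / 2) : ℝ) = 1 := by
      rw [← Real.rpow_add hts]
      norm_num
    rw [hV, VV, ← mul_assoc, h2, one_mul]
  have vQ : ∫⁻ σ in Ioo s t, Q σ ≤ ENNReal.ofReal (2 * CS ^ 2 * X) := by
    rw [hQd, ← ofReal_integral_eq_lintegral_ofReal iQ' (Eventually.of_forall fun σ => by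
      have := gsq_nonneg Ω (G σ)
      have := gsq_nonneg Ω A
      positivity)]
    apply ENNReal.ofReal_le_ofReal
    rw [← integral_Ioc_eq_integral_Ioo, ← intervalIntegral.integral_of_le hst.le]
    have i1 : IntervalIntegrable (fun σ => gsq Ω (G σ)) volume s t := ii_of h.gsq_int hs0 hst.le htT
    rw [intervalIntegral.integral_const_mul,
      intervalIntegral.integral_add (i1.const_mul 2) (by simp),
      intervalIntegral.integral_const_mul, intervalIntegral.integral_const]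
    simp only [smul_eq_mul]
    rw [hX]
    apply le_of_eq
    ring
  have v1 : ∫⁻ _ in Ioo s t, (1 : ℝ≥0∞) = ENNReal.ofReal (t - s) := by
    rw [lintegral_const, Measure.restrict_apply_univ, Real.volume_Ioo, one_mul]
  have hV0 : 0 ≤ V := by
    rw [hV, VV]
    refine mul_nonneg (Real.rpow_nonneg hts.le _) ?_
    refine intervalIntegral.integral_nonneg hst.le fun x hx => ?_
    exact mul_nonneg (Real.rpow_nonneg (by linarith [hx.2]) _) (sq_nonneg _)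
  -- pointwise bound
  have hpt : ∀ᵐ σ ∂(volume.restrict (Ioo s t)),
      ‖Bf Ω (u σ) A (fun x => u σ x - a x)‖ₑ ≤
        K * (W σ ^ θ * P σ ^ θ * Q σ ^ (1 / 2 - θ)) := by
    have hae := ae_restrict_of_ae_restrict_of_subset hsub h.grad_mem
    have hae2 := ae_restrict_of_ae_restrict_of_subset hsub'' hM
    filter_upwards [hae, hae2, ae_restrict_mem measurableSet_Ioo] with σ h1 h1' h2
    have hσ : 0 < t - σ := hpos σ h2
    have h3 := memH1s_sub h1 ha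
    have h4 : MemLp (fun x => u σ x - a x) 2 (volume.restrict Ω) := h3.toL2.memLp
    have h5 := Bf_le_q hq (v := u σ) (w := fun x => u σ x - a x) (A := A) h1.1 h3.1 hAm
    refine h5.trans ?_
    have h6 : eLpNorm (u σ) q (volume.restrict Ω) ≤
        ENNReal.ofReal M' * ENNReal.ofReal ((t - σ) ^ (-θ)) := by
      refine (h1' ⟨hs.1.trans h2.1, h2.2⟩).trans ?_
      rw [← ENNReal.ofReal_mul hM'0]
      exact ENNReal.ofReal_le_ofReal
        (mul_le_mul_of_nonneg_right (le_max_left _ _) (Real.rpow_nonneg hσ.le _))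
    have h7 : eLpNorm (fun x => u σ x - a x) 2 (volume.restrict Ω) ^ (2 * θ) =
        ENNReal.ofReal ((nm Ω (fun x => u σ x - a x) ^ 2) ^ θ) := by
      rw [nm_eq h4, ENNReal.ofReal_rpow_of_nonneg (nm_nonneg _ _) (by linarith),
        Real.rpow_mul (nm_nonneg _ _), Real.rpow_two]
    have h8 : eLpNorm (fun x => u σ x - a x) 6 (volume.restrict Ω) ^ (1 - 2 * θ) ≤
        Q σ ^ (1 / 2 - θ) := by
      have h9 : eLpNorm (fun x => u σ x - a x) 6 (volume.restrict Ω) ^ (2 : ℝ) ≤ Q σ := by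
        have hg := gsq_sub_le h1.grad_memLp hAm
        have hg0 := gsq_nonneg Ω (fun i x => G σ i x - A i x)
        refine (ENNReal.rpow_le_rpow (hCS _ _ h3) (by norm_num)).trans ?_
        rw [ENNReal.ofReal_rpow_of_nonneg (by positivity) (by norm_num), Real.rpow_two, mul_pow,
          Real.sq_sqrt hg0]
        exact ENNReal.ofReal_le_ofReal (mul_le_mul_of_nonneg_left hg (by positivity))
      have h10 := ENNReal.rpow_le_rpow h9 (z := 1 / 2 - θ) (by linarith)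
      rw [← ENNReal.rpow_mul] at h10
      refine le_trans (le_of_eq ?_) h10
      congr 1
      ring
    have h11 : ENNReal.ofReal ((t - σ) ^ (-θ)) *
        ENNReal.ofReal ((nm Ω (fun x => u σ x - a x) ^ 2) ^ θ) = W σ ^ θ * P σ ^ θ := by
      have hw0 : 0 ≤ (t - σ) ^ (-(1 / 2) : ℝ) := Real.rpow_nonneg hσ.le _
      have hp0 : 0 ≤ (t - σ) ^ (-(1 / 2) : ℝ) * nm Ω (fun x => u σ x - a x) ^ 2 :=
        mul_nonneg hw0 (sq_nonneg _)
      show _ = ENNReal.ofReal _ ^ θ * ENNReal.ofReal _ ^ θ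
      rw [ENNReal.ofReal_rpow_of_nonneg hw0 hth0, ENNReal.ofReal_rpow_of_nonneg hp0 hth0,
        ← ENNReal.ofReal_mul (Real.rpow_nonneg hσ.le _),
        ← ENNReal.ofReal_mul (Real.rpow_nonneg hw0 _), Real.mul_rpow hw0 (sq_nonneg _),
        ← mul_assoc, ← Real.rpow_mul hσ.le, ← Real.rpow_add hσ]
      congr 3
      ring
    calc 3 * ENNReal.ofReal (Real.sqrt (gsq Ω A)) *
          (eLpNorm (u σ) q (volume.restrict Ω) *
            eLpNorm (fun x => u σ x - a x) 2 (volume.restrict Ω) ^ (2 * θ) *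
            eLpNorm (fun x => u σ x - a x) 6 (volume.restrict Ω) ^ (1 - 2 * θ))
        ≤ 3 * ENNReal.ofReal (Real.sqrt (gsq Ω A)) *
          (ENNReal.ofReal M' * ENNReal.ofReal ((t - σ) ^ (-θ)) *
            ENNReal.ofReal ((nm Ω (fun x => u σ x - a x) ^ 2) ^ θ) * Q σ ^ (1 / 2 - θ)) := by
          rw [h7]; gcongr
      _ = K * ((ENNReal.ofReal ((t - σ) ^ (-θ)) *
            ENNReal.ofReal ((nm Ω (fun x => u σ x - a x) ^ 2) ^ θ)) * Q σ ^ (1 / 2 - θ)) := by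
          rw [hK]; ring
      _ = _ := by rw [h11]
  -- the estimate in `ℝ≥0∞`
  have hmain : ‖∫ σ in s..τ, Bf Ω (u σ) A (fun x => u σ x - a x)‖ₑ ≤
      K * (ENNReal.ofReal (t - s) ^ (1 / 2 - θ) *
        ENNReal.ofReal (2 * (t - s) ^ (1 / 2 : ℝ)) ^ θ *
        ENNReal.ofReal ((t - s) ^ (1 / 2 : ℝ) * V) ^ θ *
        ENNReal.ofReal (2 * CS ^ 2 * X) ^ (1 / 2 - θ)) := by
    rw [intervalIntegral.integral_of_le hτ.1]
    refine (enorm_integral_le_lintegral_enorm _).trans ?_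
    refine (lintegral_mono_set (Ioc_subset_Ioc_right hτ.2)).trans ?_
    have e1 : ∫⁻ σ in Ioc s t, ‖Bf Ω (u σ) A (fun x => u σ x - a x)‖ₑ =
        ∫⁻ σ in Ioo s t, ‖Bf Ω (u σ) A (fun x => u σ x - a x)‖ₑ :=
      setLIntegral_congr Ioo_ae_eq_Ioc.symm
    rw [e1]
    refine (lintegral_mono_ae hpt).trans ?_
    have hKt : K ≠ ⊤ := by
      rw [hK]
      exact ENNReal.mul_ne_top (ENNReal.mul_ne_top (by norm_num) ENNReal.ofReal_ne_top)
        ENNReal.ofReal_ne_top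
    rw [lintegral_const_mul' _ _ hKt]
    refine mul_le_mul_right ?_ K
    refine (HoW_holder hth0 hth1 hWm hPm hQm).trans ?_
    rw [vW, vP, v1]
    exact mul_le_mul_right (ENNReal.rpow_le_rpow vQ (by linarith)) _
  -- back to the reals
  have hreal : K * (ENNReal.ofReal (t - s) ^ (1 / 2 - θ) *
        ENNReal.ofReal (2 * (t - s) ^ (1 / 2 : ℝ)) ^ θ *
        ENNReal.ofReal ((t - s) ^ (1 / 2 : ℝ) * V) ^ θ *
        ENNReal.ofReal (2 * CS ^ 2 * X) ^ (1 / 2 - θ)) =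
      ENNReal.ofReal (3 * Real.sqrt (gsq Ω A) * M' * ((t - s) ^ (1 / 2 - θ) *
        (2 * (t - s) ^ (1 / 2 : ℝ)) ^ θ * ((t - s) ^ (1 / 2 : ℝ) * V) ^ θ *
        (2 * CS ^ 2 * X) ^ (1 / 2 - θ))) := by
    have e3 : (3 : ℝ≥0∞) = ENNReal.ofReal 3 := by simp
    rw [hK, e3, ENNReal.ofReal_rpow_of_nonneg hts.le (by linarith),
      ENNReal.ofReal_rpow_of_nonneg (by positivity) hth0,
      ENNReal.ofReal_rpow_of_nonneg (by positivity) hth0,
      ENNReal.ofReal_rpow_of_nonneg (by positivity) (by linarith),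
      ← ENNReal.ofReal_mul (by positivity), ← ENNReal.ofReal_mul (by positivity),
      ← ENNReal.ofReal_mul (by positivity), ← ENNReal.ofReal_mul (by positivity),
      ← ENNReal.ofReal_mul (by positivity), ← ENNReal.ofReal_mul (by positivity)]
  rw [hreal, Real.enorm_eq_ofReal_abs, ENNReal.ofReal_le_ofReal_iff (by positivity)] at hmain
  refine hmain.trans ?_
  rw [HoW_real hts hV0]
  have hgA : Real.sqrt (gsq Ω A) * (t - s) ^ (1 / 2 : ℝ) ≤ X ^ (1 / 2 : ℝ) := by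
    rw [← Real.sqrt_eq_rpow, ← Real.sqrt_eq_rpow, ← Real.sqrt_mul (gsq_nonneg Ω A)]
    apply Real.sqrt_le_sqrt
    rw [hX]
    linarith
  have hXr : X ^ (1 - θ) = X ^ (1 / 2 : ℝ) * X ^ (1 / 2 - θ) := by
    rw [← Real.rpow_add_of_nonneg hX0 (by norm_num) (by linarith)]
    congr 1; ring
  have hCX : (2 * CS ^ 2 * X) ^ (1 / 2 - θ) =
      (2 * CS ^ 2) ^ (1 / 2 - θ) * X ^ (1 / 2 - θ) :=
    Real.mul_rpow (by positivity) hX0
  have hY := hB θ X V hth0 hth1 hX0 hV0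
  have hP : 0 ≤ 3 * M' * 2 ^ θ * (2 * CS ^ 2) ^ (1 / 2 - θ) * X ^ (1 / 2 - θ) * V ^ θ := by
    positivity
  have e0 : (t - s) ^ (-(0 : ℝ)) = 1 := by rw [neg_zero, Real.rpow_zero]
  rw [e0, mul_one]
  refine le_trans ?_ hY
  rw [hXr, hCX]
  calc 3 * Real.sqrt (gsq Ω A) * M' * ((t - s) ^ (1 / 2 : ℝ) *
        (2 ^ θ * V ^ θ * ((2 * CS ^ 2) ^ (1 / 2 - θ) * X ^ (1 / 2 - θ))))
      = (Real.sqrt (gsq Ω A) * (t - s) ^ (1 / 2 : ℝ)) *
        (3 * M' * 2 ^ θ * (2 * CS ^ 2) ^ (1 / 2 - θ) * X ^ (1 / 2 - θ) * V ^ θ) := by ring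
    _ ≤ X ^ (1 / 2 : ℝ) *
        (3 * M' * 2 ^ θ * (2 * CS ^ 2) ^ (1 / 2 - θ) * X ^ (1 / 2 - θ) * V ^ θ) :=
        mul_le_mul_of_nonneg_right hgA hP
    _ = _ := by ring

end Pool.Agent.Helper7.NU
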