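import Pool.Agent.Helper7.NU.Defs
import Pool.Agent.Helper7.NU.Vms
import Pool.Agent.Helper7.NT.Idn
import Pool.Agent.Helper7.NT.Sob
import Pool.Agent.Helper7.NT.Vsp

/-!
Module KeyW: the integral inequality for the positive part of `D(t) - D(s)`.
-/

open MeasureTheory Set Filter Topology
open scoped ENNReal

namespace Pool.Agent.Helper7.NU

open Pool.Agent.Helper52.NSE Pool.Agent.Helper7.NT

variable {Ω : Set E3} {ν T : ℝ} {u₀ : E3 → E3} {f u : ℝ → E3 → E3} {G : ℝ → Fin 3 → E3 → E3}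

/-- the linear terms of the identity for `u(τ) - u(s)` -/
theorem keyW_lin (hO : IsOpen Ω) (hb : Bornology.IsBounded Ω) (hν : 0 < ν)
    (h : IsWeakSolution Ω ν T u₀ f u G) :
    ∃ C1 : ℝ, 0 < C1 ∧ ∀ s t : ℝ, 0 ≤ s → s < t → t ≤ T → MemH1s Ω (u s) (G s) →
      ∀ τ ∈ Ioc s t, defect Ω ν f u G τ - defect Ω ν f u G s +
      nm Ω (fun x => u τ x - u s x) ^ 2 / 2 ≤
        C1 * ((∫ τ in s..t, ∫ x in Ω, ‖f τ x‖ ^ 2) +
          ((∫ τ in s..t, gsq Ω (G τ)) + (t - s) * gsq Ω (G s))) -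
        ∫ σ in s..τ, Bf Ω (u σ) (G s) (fun x => u σ x - u s x) := by
  obtain ⟨CP, hCP, hpoi⟩ := poincare hO hb
  obtain ⟨CS, hCS, hsob⟩ := sobolev hO hb
  set C1 : ℝ := 1 + 2 * CP ^ 2 + ν with hC1
  have hC10 : 0 < C1 := by positivity
  refine ⟨C1, hC10, ?_⟩
  intro s t hs hst htT hmem
  have hA := hmem.grad_memLp
  have ha2 := hmem.toL2.memLp
  have ha6 : MemLp (u s) 6 (volume.restrict Ω) :=
    ⟨hmem.1, lt_of_le_of_lt (hsob _ _ hmem) ENNReal.ofReal_lt_top⟩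
  have hgs0 : 0 ≤ gsq Ω (G s) := gsq_nonneg Ω _
  intro τ hτ
  have hτT : τ ≤ T := hτ.2.trans htT
  have iA := ii_of h.power_int hs hτ.1.le hτT
  have iP := ii_of (pair_time h ha2) hs hτ.1.le hτT
  have iG := ii_of h.gsq_int hs hτ.1.le hτT
  have igp := ii_of (gp_time h hA) hs hτ.1.le hτT
  have iB := ii_of (Bf_time hO hb h ha6 hA) hs hτ.1.le hτT
  have iF := ii_of h.force_int hs hτ.1.le hτT
  have g1 := (ae_restrict_iff' measurableSet_Icc).1 h.grad_mem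
  have g2 := (ae_restrict_iff' measurableSet_Icc).1 h.force_mem
  have hpair : ∀ᵐ σ ∂volume, σ ∈ uIoc s τ →
      power Ω (f σ) (u σ) - ∫ x in Ω, inner ℝ (f σ x) (u s x) =
      ∫ x in Ω, inner ℝ (f σ x) (u σ x - u s x) := by
    filter_upwards [g2] with σ h2 hσ
    rw [uIoc_of_le hτ.1.le] at hσ
    have hσ' : σ ∈ Icc 0 T := ⟨hs.trans hσ.1.le, hσ.2.trans hτT⟩
    have hf := (h2 hσ').memLp
    have hu2 := (h.mem σ hσ').memLp
    unfold power
    rw [← integral_sub (inner_int hf hu2) (inner_int hf ha2)]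
    refine integral_congr_ae (Eventually.of_forall fun x => ?_)
    simp only [inner_sub_right]
  have iW : IntervalIntegrable (fun σ => ∫ x in Ω, inner ℝ (f σ x) (u σ x - u s x)) volume s τ := by
    refine (iA.sub iP).congr_ae ?_
    exact (ae_restrict_iff' measurableSet_uIoc).2 hpair
  have i1 : IntervalIntegrable (fun σ => (∫ x in Ω, inner ℝ (f σ x) (u σ x - u s x)) -
      ν * gsq Ω (G σ) + ν * gp Ω (G σ) (G s)) volume s τ :=
    (iW.sub (iG.const_mul ν)).add (igp.const_mul ν)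
  rw [identity hO hb h hs hτ.1.le hτT hmem, intervalIntegral.integral_sub i1 iB]
  have i2 : IntervalIntegrable (fun σ => C1 * ((∫ x in Ω, ‖f σ x‖ ^ 2) +
      (gsq Ω (G σ) + gsq Ω (G s)))) volume s τ :=
    (iF.add (iG.add intervalIntegrable_const)).const_mul C1
  have hmono : ∫ σ in s..τ, ((∫ x in Ω, inner ℝ (f σ x) (u σ x - u s x)) -
      ν * gsq Ω (G σ) + ν * gp Ω (G σ) (G s)) ≤
      ∫ σ in s..τ, C1 * ((∫ x in Ω, ‖f σ x‖ ^ 2) + (gsq Ω (G σ) + gsq Ω (G s))) := by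
    rw [intervalIntegral.integral_of_le hτ.1.le, intervalIntegral.integral_of_le hτ.1.le]
    refine setIntegral_mono_on_ae i1.1 i2.1 measurableSet_Ioc ?_
    filter_upwards [g1, g2] with σ h1 h2 hσ
    have hσ' : σ ∈ Icc 0 T := ⟨hs.trans hσ.1.le, hσ.2.trans hτT⟩
    have hm := h1 hσ'
    have hf := (h2 hσ').memLp
    have hu2 := (h.mem σ hσ').memLp
    have hGσ := hm.grad_memLp
    have hsub := memH1s_sub hm hmem
    have p1 := hpoi _ _ hsub
    have p2 := gsq_sub_le hGσ hA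
    have p3 := gp_le hGσ hA
    have p4 := cs hf (hu2.sub ha2)
    have hg0 : 0 ≤ gsq Ω (G σ) := gsq_nonneg Ω _
    have hd0 : 0 ≤ gsq Ω (fun i x => G σ i x - G s i x) := gsq_nonneg Ω _
    have q1 : nm Ω (fun x => u σ x - u s x) ^ 2 ≤
        CP ^ 2 * (2 * gsq Ω (G σ) + 2 * gsq Ω (G s)) := by
      calc nm Ω (fun x => u σ x - u s x) ^ 2 ≤
          (CP * Real.sqrt (gsq Ω (fun i x => G σ i x - G s i x))) ^ 2 :=
            pow_le_pow_left₀ (nm_nonneg _ _) p1 2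
        _ = CP ^ 2 * gsq Ω (fun i x => G σ i x - G s i x) := by
            rw [mul_pow, Real.sq_sqrt hd0]
        _ ≤ _ := mul_le_mul_of_nonneg_left p2 (by positivity)
    have q2 : (∫ x in Ω, inner ℝ (f σ x) (u σ x - u s x)) ≤
        nm Ω (f σ) ^ 2 / 2 + nm Ω (fun x => u σ x - u s x) ^ 2 / 2 := by
      have p5 : (∫ x in Ω, inner ℝ (f σ x) (u σ x - u s x)) ≤
          nm Ω (f σ) * nm Ω (fun x => u σ x - u s x) := (le_abs_self _).trans p4
      nlinarith [sq_nonneg (nm Ω (f σ) - nm Ω (fun x => u σ x - u s x))]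
    have q3 : gp Ω (G σ) (G s) ≤ (gsq Ω (G σ) + gsq Ω (G s)) / 2 := by
      have p6 := (le_abs_self _).trans p3
      have s1 := Real.sq_sqrt hg0
      have s2 := Real.sq_sqrt hgs0
      nlinarith [sq_nonneg (Real.sqrt (gsq Ω (G σ)) - Real.sqrt (gsq Ω (G s)))]
    rw [nm_sq Ω (f σ)] at q2
    have hff : 0 ≤ ∫ x in Ω, ‖f σ x‖ ^ 2 := integral_nonneg fun x => by positivity
    have q4 : ν * gp Ω (G σ) (G s) ≤ ν * ((gsq Ω (G σ) + gsq Ω (G s)) / 2) :=
      mul_le_mul_of_nonneg_left q3 hν.le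
    have n1 : 0 ≤ ν * gsq Ω (G σ) := by positivity
    have n2 : 0 ≤ ν * gsq Ω (G s) := by positivity
    have n3 : 0 ≤ CP ^ 2 * gsq Ω (G σ) := by positivity
    have n4 : 0 ≤ CP ^ 2 * gsq Ω (G s) := by positivity
    have n5 : 0 ≤ CP ^ 2 * ∫ x in Ω, ‖f σ x‖ ^ 2 := by positivity
    have n6 : 0 ≤ ν * ∫ x in Ω, ‖f σ x‖ ^ 2 := by positivity
    rw [hC1]
    nlinarith
  refine sub_le_sub_right (hmono.trans ?_) _
  rw [intervalIntegral.integral_const_mul]
  refine mul_le_mul_of_nonneg_left ?_ hC10.le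
  rw [intervalIntegral.integral_add iF (iG.add intervalIntegrable_const),
    intervalIntegral.integral_add iG intervalIntegrable_const, intervalIntegral.integral_const,
    smul_eq_mul]
  have m1 : ∫ σ in s..τ, ∫ x in Ω, ‖f σ x‖ ^ 2 ≤ ∫ σ in s..t, ∫ x in Ω, ‖f σ x‖ ^ 2 :=
    intervalIntegral.integral_mono_interval le_rfl hτ.1.le hτ.2
      (Eventually.of_forall fun σ => integral_nonneg fun x => by positivity)
      (ii_of h.force_int hs hst.le htT)
  have m2 : ∫ σ in s..τ, gsq Ω (G σ) ≤ ∫ σ in s..t, gsq Ω (G σ) :=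
    intervalIntegral.integral_mono_interval le_rfl hτ.1.le hτ.2
      (Eventually.of_forall fun σ => gsq_nonneg Ω _) (ii_of h.gsq_int hs hst.le htT)
  have m3 : (τ - s) * gsq Ω (G s) ≤ (t - s) * gsq Ω (G s) :=
    mul_le_mul_of_nonneg_right (by linarith [hτ.2]) hgs0
  linarith

theorem key_w (hO : IsOpen Ω) (hb : Bornology.IsBounded Ω) (hν : 0 < ν)
    (h : IsWeakSolution Ω ν T u₀ f u G) {t κ B δ : ℝ} (ht : t ∈ Ioc 0 T) (hB : 0 ≤ B)
    (hfl : FluxBound Ω u G κ B δ t) :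
    ∃ C : ℝ, 0 < C ∧ ∀ s ∈ Ioo (t - δ) t, 0 ≤ s → MemH1s Ω (u s) (G s) →
      pp (defect Ω ν f u G) t s ≤
        C * (∫ τ in s..t, ∫ x in Ω, ‖f τ x‖ ^ 2) +
        C * (1 + (t - s) ^ (-κ)) * ((∫ τ in s..t, gsq Ω (G τ)) + (t - s) * gsq Ω (G s)) +
        1 / 16 * wm (pp (defect Ω ν f u G) t) s t := by
  obtain ⟨C1, hC10, hlin⟩ := keyW_lin hO hb hν h
  refine ⟨2 * (C1 + B), by positivity, ?_⟩
  intro s hsδ hs hmem
  have hst : s < t := hsδ.2
  have htT : t ≤ T := ht.2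
  have ha2 := hmem.toL2.memLp
  set D := defect Ω ν f u G with hD
  set F : ℝ := ∫ τ in s..t, ∫ x in Ω, ‖f τ x‖ ^ 2 with hF
  set X : ℝ := (∫ τ in s..t, gsq Ω (G τ)) + (t - s) * gsq Ω (G s) with hX
  have hgs0 : 0 ≤ gsq Ω (G s) := gsq_nonneg Ω _
  have hF0 : 0 ≤ F :=
    intervalIntegral.integral_nonneg hst.le fun τ _ => integral_nonneg fun x => by positivity
  have hX0 : 0 ≤ X := by
    have h1 : 0 ≤ ∫ τ in s..t, gsq Ω (G τ) :=
      intervalIntegral.integral_nonneg hst.le fun τ _ => gsq_nonneg Ω _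
    have h2 : 0 ≤ (t - s) * gsq Ω (G s) := mul_nonneg (by linarith) hgs0
    linarith
  have hpw : 0 ≤ (t - s) ^ (-κ) := Real.rpow_nonneg (by linarith) _
  have hpp0 : ∀ τ, 0 ≤ pp D t τ := fun τ => le_max_right _ _
  have hwm0 : 0 ≤ wm (pp D t) s t := by
    unfold wm
    refine mul_nonneg (Real.rpow_nonneg (by linarith) _)
      (intervalIntegral.integral_nonneg hst.le fun τ hτ => ?_)
    exact mul_nonneg (Real.rpow_nonneg (by linarith [hτ.2]) _) (hpp0 τ)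
  have n1 : 0 ≤ B * F := mul_nonneg hB hF0
  have n2 : 0 ≤ B * X := mul_nonneg hB hX0
  have n3 : 0 ≤ B * ((t - s) ^ (-κ) * X) := mul_nonneg hB (mul_nonneg hpw hX0)
  have n4 : 0 ≤ C1 * ((t - s) ^ (-κ) * X) := mul_nonneg hC10.le (mul_nonneg hpw hX0)
  have n5 : 0 ≤ C1 * F := mul_nonneg hC10.le hF0
  have n6 : 0 ≤ C1 * X := mul_nonneg hC10.le hX0
  rcases le_or_gt (D t) (D s) with hle | hlt
  · have hp : pp D t s = 0 := max_eq_right (by linarith)
    rw [hp]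
    nlinarith
  have hp : pp D t s = D t - D s := max_eq_left (by linarith)
  set V : ℝ := VV Ω u (u s) s t with hV
  set R0 : ℝ := C1 * (F + X) + B * (t - s) ^ (-κ) * X with hR0
  have key1 : ∀ τ ∈ Ioc s t, D τ - D s + nm Ω (fun x => u τ x - u s x) ^ 2 / 2 ≤
      R0 + 1 / 64 * V := by
    intro τ hτ
    have h1 := hlin s t hs hst htT hmem τ hτ
    have h2 := (abs_le.1 (hfl s hsδ hs (u s) (G s) hmem τ ⟨hτ.1.le, hτ.2⟩)).1
    rw [← hF, ← hX] at h1
    rw [← hX, ← hV] at h2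
    rw [hR0]
    linarith
  -- weighted mean values
  obtain ⟨K1, hK1, hK1b⟩ := nmsq_bdd h ha2
  obtain ⟨K2, hK2, hK2b⟩ := defect_bdd h
  have hsub : Ioc s t ⊆ Icc 0 T := fun τ hτ => ⟨hs.trans hτ.1.le, hτ.2.trans htT⟩
  have m1 : AEStronglyMeasurable (fun τ => nm Ω (fun x => u τ x - u s x) ^ 2)
      (volume.restrict (Ioc s t)) := (nmsq_meas h ha2).mono_set hsub
  have m2 : AEStronglyMeasurable (pp D t) (volume.restrict (Ioc s t)) := by
    have h1 : AEStronglyMeasurable D (volume.restrict (Ioc s t)) := (defect_meas h).mono_set hsub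
    have h2 : AEStronglyMeasurable (fun τ => max (D t - D τ) 0) (volume.restrict (Ioc s t)) :=
      (aestronglyMeasurable_const.sub h1).sup aestronglyMeasurable_const
    exact h2
  have w1 := weight_int hst m1 (K := K1) fun τ hτ => by
    rw [abs_of_nonneg (by positivity)]
    exact hK1b τ (hsub hτ)
  have w2 := weight_int hst m2 (K := 2 * K2) fun τ hτ => by
    rw [abs_of_nonneg (hpp0 τ)]
    have h1 := abs_le.1 (hK2b τ (hsub hτ))
    have h2 := abs_le.1 (hK2b t ⟨ht.1.le, htT⟩)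
    refine max_le ?_ (by linarith)
    linarith [h1.1, h2.2]
  have w3 : IntervalIntegrable (fun τ => (t - τ) ^ (-(1 / 2) : ℝ)) volume s t := by
    have := weight_int hst (φ := fun _ => (1 : ℝ)) aestronglyMeasurable_const (K := 1)
      (fun τ _ => by simp)
    simpa using this
  have hw := weight_one hst
  have hh : 0 ≤ (t - s) ^ (-(1 / 2) : ℝ) := Real.rpow_nonneg (by linarith) _
  have hmain : V / 2 + 2 * (D t - D s) - wm (pp D t) s t ≤ 2 * (R0 + 1 / 64 * V) := by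
    have i1 : IntervalIntegrable (fun τ => (t - τ) ^ (-(1 / 2) : ℝ) *
        nm Ω (fun x => u τ x - u s x) ^ 2 * (1 / 2) +
        ((t - τ) ^ (-(1 / 2) : ℝ) * (D t - D s) - (t - τ) ^ (-(1 / 2) : ℝ) * pp D t τ))
        volume s t := (w1.mul_const _).add ((w3.mul_const _).sub w2)
    have i2 : IntervalIntegrable (fun τ => (t - τ) ^ (-(1 / 2) : ℝ) * (R0 + 1 / 64 * V))
        volume s t := w3.mul_const _
    have hmono : ∫ τ in s..t, ((t - τ) ^ (-(1 / 2) : ℝ) *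
        nm Ω (fun x => u τ x - u s x) ^ 2 * (1 / 2) +
        ((t - τ) ^ (-(1 / 2) : ℝ) * (D t - D s) - (t - τ) ^ (-(1 / 2) : ℝ) * pp D t τ)) ≤
        ∫ τ in s..t, (t - τ) ^ (-(1 / 2) : ℝ) * (R0 + 1 / 64 * V) := by
      refine intervalIntegral.integral_mono_on_of_le_Ioo hst.le i1 i2 fun τ hτ => ?_
      have h1 := key1 τ ⟨hτ.1, hτ.2.le⟩
      have h2 : D t - D τ ≤ pp D t τ := le_max_left _ _
      have h3 : 0 ≤ (t - τ) ^ (-(1 / 2) : ℝ) := Real.rpow_nonneg (by linarith [hτ.2]) _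
      have h4 : nm Ω (fun x => u τ x - u s x) ^ 2 * (1 / 2) + ((D t - D s) - pp D t τ) ≤
          R0 + 1 / 64 * V := by linarith
      have h5 := mul_le_mul_of_nonneg_left h4 h3
      calc _ = (t - τ) ^ (-(1 / 2) : ℝ) * (nm Ω (fun x => u τ x - u s x) ^ 2 * (1 / 2) +
            ((D t - D s) - pp D t τ)) := by ring
        _ ≤ _ := h5
    rw [intervalIntegral.integral_add (w1.mul_const _) ((w3.mul_const _).sub w2),
      intervalIntegral.integral_sub (w3.mul_const _) w2,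
      intervalIntegral.integral_mul_const, intervalIntegral.integral_mul_const,
      intervalIntegral.integral_mul_const] at hmono
    have h6 := mul_le_mul_of_nonneg_left hmono hh
    have eV : V = (t - s) ^ (-(1 / 2) : ℝ) *
      ∫ τ in s..t, (t - τ) ^ (-(1 / 2) : ℝ) * nm Ω (fun x => u τ x - u s x) ^ 2 := rfl
    have eW : wm (pp D t) s t = (t - s) ^ (-(1 / 2) : ℝ) *
      ∫ τ in s..t, (t - τ) ^ (-(1 / 2) : ℝ) * pp D t τ := rfl
    calc V / 2 + 2 * (D t - D s) - wm (pp D t) s t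
        = ((t - s) ^ (-(1 / 2) : ℝ) *
            ∫ τ in s..t, (t - τ) ^ (-(1 / 2) : ℝ) * nm Ω (fun x => u τ x - u s x) ^ 2) / 2 +
          ((t - s) ^ (-(1 / 2) : ℝ) * ∫ τ in s..t, (t - τ) ^ (-(1 / 2) : ℝ)) * (D t - D s) -
          ((t - s) ^ (-(1 / 2) : ℝ) * ∫ τ in s..t, (t - τ) ^ (-(1 / 2) : ℝ) * pp D t τ) := by
            rw [← eV, ← eW, hw]
      _ = (t - s) ^ (-(1 / 2) : ℝ) * ((∫ τ in s..t, (t - τ) ^ (-(1 / 2) : ℝ) *
            nm Ω (fun x => u τ x - u s x) ^ 2) * (1 / 2) +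
          ((∫ τ in s..t, (t - τ) ^ (-(1 / 2) : ℝ)) * (D t - D s) -
            ∫ τ in s..t, (t - τ) ^ (-(1 / 2) : ℝ) * pp D t τ)) := by ring
      _ ≤ (t - s) ^ (-(1 / 2) : ℝ) *
          ((∫ τ in s..t, (t - τ) ^ (-(1 / 2) : ℝ)) * (R0 + 1 / 64 * V)) := h6
      _ = ((t - s) ^ (-(1 / 2) : ℝ) * ∫ τ in s..t, (t - τ) ^ (-(1 / 2) : ℝ)) *
          (R0 + 1 / 64 * V) := by ring
      _ = 2 * (R0 + 1 / 64 * V) := by rw [hw]
  have hfin := key1 t ⟨hst, le_rfl⟩
  have hsq : 0 ≤ nm Ω (fun x => u t x - u s x) ^ 2 / 2 := by positivity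
  have hR00 : 0 ≤ R0 := by
    rw [hR0]
    nlinarith
  have hconc : D t - D s ≤ 2 * R0 + 1 / 16 * wm (pp D t) s t := by linarith
  rw [hp]
  refine hconc.trans ?_
  rw [hR0]
  nlinarith

end Pool.Agent.Helper7.NU
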