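import Pool.Agent.Helper7.NU.HoD
import Pool.Agent.Helper7.NU.HoW
import Pool.Agent.Helper7.NU.KeyW
import Pool.Agent.Helper7.NU.HarA
import Pool.Agent.Helper7.NU.HarB
import Pool.Agent.Helper7.NU.RW
import Pool.Agent.Helper7.NT.Fin

/-!
Assembly: the energy equality for weak solutions (energy inequality from the time `0` only) whose
times are of Type I, or belong to small sets with a rate of the dissipation.
-/

open MeasureTheory Set Filter Topology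
open scoped ENNReal

namespace Pool.Agent.Helper7.NU

open Pool.Agent.Helper52.NSE Pool.Agent.Helper7.NT

variable {Ω : Set E3} {ν T : ℝ} {u₀ : E3 → E3} {f u : ℝ → E3 → E3} {G : ℝ → Fin 3 → E3 → E3}

theorem pp_nonneg (D : ℝ → ℝ) (t s : ℝ) : 0 ≤ pp D t s := le_max_right _ _

theorem pp_meas (h : IsWeakSolution Ω ν T u₀ f u G) (t : ℝ) :
    AEStronglyMeasurable (pp (defect Ω ν f u G) t) (volume.restrict (Icc 0 T)) :=
  ((aestronglyMeasurable_const (b := defect Ω ν f u G t)).sub (defect_meas h)).sup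
    aestronglyMeasurable_const

theorem pp_bdd (h : IsWeakSolution Ω ν T u₀ f u G) {t : ℝ} (ht : t ∈ Icc 0 T) :
    ∃ K : ℝ, ∀ s ∈ Icc 0 T, pp (defect Ω ν f u G) t s ≤ K := by
  obtain ⟨K, hK0, hK⟩ := defect_bdd h
  refine ⟨2 * K, fun s hs => ?_⟩
  have h1 := abs_le.mp (hK t ht)
  have h2 := abs_le.mp (hK s hs)
  unfold pp
  exact max_le (by linarith) (by linarith)

theorem le_of_pp {D : ℝ → ℝ} {t s x : ℝ} (h : pp D t s ≤ x) : D t ≤ D s + x := by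
  have := le_max_left (D t - D s) 0
  unfold pp at h
  linarith

theorem sup_left (hO : IsOpen Ω) (hb : Bornology.IsBounded Ω) (hν : 0 < ν)
    (h : IsWeakSolution Ω ν T u₀ f u G) {t : ℝ} (ht : t ∈ Ioc 0 T) (hI : TypeISup Ω u G t) :
    ∃ M : ℝ, ∀ δ : ℝ, 0 < δ → ∃ s ∈ Ioo (t - δ) t, 0 ≤ s ∧
      defect Ω ν f u G t ≤ defect Ω ν f u G s + M * ∫ τ in s..t, gg Ω f G τ := by
  have hfl : ∃ B δ : ℝ, 0 ≤ B ∧ 0 < δ ∧ FluxBound Ω u G 0 B δ t := by
    rcases hI with h1 | ⟨q, hq, h1⟩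
    · have h2 : DissipationOrder Ω G ((1 + 3 * (1 / 2)) / 5) t := by
        rw [show ((1 : ℝ) + 3 * (1 / 2)) / 5 = 1 / 2 by norm_num]
        exact h1
      obtain ⟨B, δ, h3, h4, h5⟩ := flux_diss hO hb h (β := 1 / 2) (by norm_num) le_rfl ht h2
      refine ⟨B, δ, h3, h4, ?_⟩
      rw [show ((1 : ℝ) - 2 * (1 / 2)) / 5 = 0 by norm_num] at h5
      exact h5
    · exact flux_norm hO hb h hq ht h1
  obtain ⟨B, δ, hB, hδ, hF⟩ := hfl
  obtain ⟨C, hC, hkey⟩ := key_w hO hb hν h ht hB hF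
  obtain ⟨K, hK⟩ := pp_bdd h (Ioc_subset_Icc_self ht)
  have hineq : ∀ᵐ s ∂(volume.restrict (Icc 0 T)), s ∈ Ioo (t - δ) t →
      pp (defect Ω ν f u G) t s ≤ 2 * C * ((∫ τ in s..t, gg Ω f G τ) + (t - s) * gsq Ω (G s)) +
        1 / 16 * wm (pp (defect Ω ν f u G) t) s t := by
    filter_upwards [h.grad_mem, ae_restrict_mem measurableSet_Icc] with s hs hs' hst
    have h1 := hkey s hst hs'.1 hs
    rw [neg_zero, Real.rpow_zero] at h1
    refine h1.trans (add_le_add ?_ le_rfl)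
    rw [int_gg h hs'.1 hst.2.le ht.2]
    have p1 : 0 ≤ ∫ τ in s..t, ∫ x in Ω, ‖f τ x‖ ^ 2 :=
      intervalIntegral.integral_nonneg hst.2.le fun τ _ => fsq_nonneg Ω (f τ)
    have p2 : 0 ≤ t - s := by linarith [hst.2]
    have p3 := mul_nonneg hC.le p1
    have p4 := mul_nonneg hC.le p2
    nlinarith
  obtain ⟨M, hM⟩ := har_a ht.1 ht.2 h.gsq_int (fun τ => gsq_nonneg Ω (G τ)) (gg_int h)
    (fun τ => by unfold gg; linarith [fsq_nonneg Ω (f τ)]) hδ (by positivity) (pp_meas h t)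
    (pp_nonneg _ t) hK hineq
  refine ⟨M, fun δ' hδ' => ?_⟩
  obtain ⟨s, hs, hs0, h1⟩ := hM δ' hδ'
  exact ⟨s, hs, hs0, le_of_pp h1⟩

theorem rate_left (hO : IsOpen Ω) (hb : Bornology.IsBounded Ω) (hν : 0 < ν)
    (h : IsWeakSolution Ω ν T u₀ f u G) {β t : ℝ} (hβ0 : 0 < β) (hβ : β ≤ 1 / 2)
    (ht : t ∈ Ioc 0 T) (hR : DissipationOrder Ω G ((1 + 3 * β) / 5) t)
    (hF : ForceOrder Ω f β t) :
    ∃ M δ : ℝ, 0 < δ ∧ ∀ r : ℝ, 0 < r → r < δ → ∃ s ∈ Ioo (t - 2 * r) (t - r), 0 ≤ s ∧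
      defect Ω ν f u G t ≤ defect Ω ν f u G s + M * r ^ β := by
  obtain ⟨B, δ, hB, hδ, hfl⟩ := flux_diss hO hb h hβ0.le hβ ht hR
  obtain ⟨C, hC, hkey⟩ := key_w hO hb hν h ht hB hfl
  obtain ⟨K, hK⟩ := pp_bdd h (Ioc_subset_Icc_self ht)
  obtain ⟨M1, δ1, hδ1, h1⟩ := hR
  obtain ⟨M2, δ2, hδ2, h2⟩ := hF
  have hpos : 0 < min δ (min δ1 δ2) := lt_min hδ (lt_min hδ1 hδ2)
  obtain ⟨M', δ', hδ', h3⟩ := har_b (δ := min δ (min δ1 δ2)) (M := max 0 (max M1 M2)) (β := β)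
    (κ := (1 - 2 * β) / 5) (C := C) (K := K) ht.1 ht.2 h.gsq_int
    (fun τ => gsq_nonneg Ω (G τ)) h.force_int (fun τ => fsq_nonneg Ω (f τ)) hpos hC.le
    (le_max_left _ _) hβ0 hβ (by linarith) (by linarith) (pp_meas h t) (pp_nonneg _ t) hK
    (fun s hs hs0 => by
      have e1 := h1 s ⟨by linarith [hs.1, (min_le_right δ (min δ1 δ2)).trans (min_le_left _ _)],
        hs.2⟩ hs0
      have e2 : β + (1 - 2 * β) / 5 = (1 + 3 * β) / 5 := by ring
      rw [e2]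
      refine e1.trans (mul_le_mul_of_nonneg_right ?_ (Real.rpow_nonneg (by linarith [hs.2]) _))
      exact (le_max_left M1 M2).trans (le_max_right _ _))
    (fun s hs hs0 => by
      have e1 := h2 s ⟨by linarith [hs.1, (min_le_right δ (min δ1 δ2)).trans (min_le_right _ _)],
        hs.2⟩ hs0
      refine e1.trans (mul_le_mul_of_nonneg_right ?_ (Real.rpow_nonneg (by linarith [hs.2]) _))
      exact (le_max_right M1 M2).trans (le_max_right _ _))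
    (by
      filter_upwards [h.grad_mem, ae_restrict_mem measurableSet_Icc] with s hs hs' hst
      exact hkey s ⟨by linarith [hst.1, min_le_left δ (min δ1 δ2)], hst.2⟩ hs'.1 hs)
  refine ⟨M', δ', hδ', fun r hr hr' => ?_⟩
  obtain ⟨s, hs, hs0, h4⟩ := h3 r hr hr'
  exact ⟨s, hs, hs0, le_of_pp h4⟩

theorem main (hO : IsOpen Ω) (hb : Bornology.IsBounded Ω) (hν : 0 < ν)
    (h : IsWeakSolution Ω ν T u₀ f u G) {C : Set ℝ} (hC : C.Countable) {S : ℕ → Set ℝ}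
    {β : ℕ → ℝ} (hβ : ∀ n, 0 < β n ∧ β n ≤ 1 / 2) (hS : ∀ n, μH[β n] (S n) = 0)
    (hI : ∀ t ∈ Ioc 0 T, TypeISup Ω u G t ∨
      (∃ n, t ∈ S n ∧ DissipationOrder Ω G ((1 + 3 * β n) / 5) t ∧ ForceOrder Ω f (β n) t) ∨
      (t ∈ C ∧ NoLoss Ω u t)) :
    ∀ t ∈ Icc 0 T, defect Ω ν f u G t = 0 := by
  intro t ht
  have h0 : defect Ω ν f u G 0 = 0 := by
    unfold defect
    simp
  have h1 := rw_main (D := defect Ω ν f u G) (gg_int h)
    (fun τ => by unfold gg; linarith [fsq_nonneg Ω (f τ), gsq_nonneg Ω (G τ)]) hC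
    (fun n => (hβ n).1) hS (fun x hx η hη => h.usc hx η hη) (ae_left hO hb hν h)
    (fun t ht => by
      rcases hI t ht with h' | ⟨n, hn, h2, h3⟩ | h'
      · exact Or.inl (sup_left hO hb hν h ht h')
      · exact Or.inr (Or.inl ⟨n, hn, rate_left hO hb hν h (hβ n).1 (hβ n).2 ht h2 h3⟩)
      · exact Or.inr (Or.inr ⟨h'.1, noLoss_left h hν ht h'.2⟩)) t ht
  have h2 := h.energy t ht
  rw [h0] at h1
  refine le_antisymm h1 ?_
  unfold defect
  linarith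

end Pool.Agent.Helper7.NU
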