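import Mathlib

/-!
Module Cov: covers of sets of Hausdorff measure zero by intervals.
-/

open MeasureTheory Set Filter Topology
open scoped ENNReal

namespace Pool.Agent.Helper7.NU

/-- covers with small total size -/
theorem cov_exists {β : ℝ} {S : Set ℝ} (hS : μH[β] S = 0) {e : ℝ≥0∞} (he : 0 < e) :
    ∃ t : ℕ → Set ℝ, S ⊆ ⋃ n, t n ∧ ∑' n, ⨆ _ : (t n).Nonempty, Metric.ediam (t n) ^ β < e := by
  rw [Measure.hausdorffMeasure_apply] at hS
  have h1 : (⨅ (t : ℕ → Set ℝ) (_ : S ⊆ ⋃ n, t n) (_ : ∀ n, Metric.ediam (t n) ≤ 1),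
      ∑' n, ⨆ _ : (t n).Nonempty, Metric.ediam (t n) ^ β) = 0 := by
    have h2 := le_iSup₂ (f := fun (r : ℝ≥0∞) (_ : 0 < r) =>
      ⨅ (t : ℕ → Set ℝ) (_ : S ⊆ ⋃ n, t n) (_ : ∀ n, Metric.ediam (t n) ≤ r),
        ∑' n, ⨆ _ : (t n).Nonempty, Metric.ediam (t n) ^ β) 1 one_pos
    rw [hS] at h2
    exact le_antisymm h2 bot_le
  have h3 : (⨅ (t : ℕ → Set ℝ) (_ : S ⊆ ⋃ n, t n) (_ : ∀ n, Metric.ediam (t n) ≤ 1),
      ∑' n, ⨆ _ : (t n).Nonempty, Metric.ediam (t n) ^ β) < e := by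
    rw [h1]
    exact he
  simp only [iInf_lt_iff] at h3
  obtain ⟨t, ht, _, h⟩ := h3
  exact ⟨t, ht, h⟩

theorem cov {β : ℝ} (hβ : 0 < β) {S : Set ℝ} (hS : μH[β] S = 0) {ε ρ : ℝ} (hε : 0 < ε)
    (hρ : 0 < ρ) :
    ∃ x r : ℕ → ℝ, (∀ k, 0 < r k ∧ r k < ρ) ∧ Summable (fun k => r k ^ β) ∧
      ∑' k, r k ^ β ≤ ε ∧ ∀ t ∈ S, ∃ k, x k ≤ t ∧ t < x k + r k := by
  obtain ⟨e, he, he1, he2⟩ : ∃ e : ℝ, 0 < e ∧ 2 * e ≤ ε ∧ 2 * e < ρ ^ β := by
    refine ⟨min ε (ρ ^ β) / 4, by positivity, ?_, ?_⟩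
    · have := min_le_left ε (ρ ^ β)
      have h0 : 0 < min ε (ρ ^ β) := by positivity
      linarith
    · have := min_le_right ε (ρ ^ β)
      have h0 : 0 < ρ ^ β := by positivity
      linarith
  obtain ⟨t, hcov, hsum⟩ := cov_exists hS (ENNReal.ofReal_pos.2 he)
  set c : ℕ → ℝ≥0∞ := fun n => ⨆ _ : (t n).Nonempty, Metric.ediam (t n) ^ β with hc
  have hctop : ∑' n, c n ≠ ∞ := (hsum.trans ENNReal.ofReal_lt_top).ne
  have hck : ∀ k, c k ≠ ∞ := fun k => ne_top_of_le_ne_top hctop (ENNReal.le_tsum k)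
  have hD : Summable fun k => (c k).toReal := ENNReal.summable_toReal hctop
  have hDs : ∑' k, (c k).toReal ≤ e := by
    rw [← ENNReal.tsum_toReal_eq hck]
    exact ENNReal.toReal_le_of_le_ofReal he.le hsum.le
  have hgs : HasSum (fun k : ℕ => e * (1 / 2) ^ (k + 1)) e := by
    have h1 := (hasSum_geometric_of_lt_one (r := (1 : ℝ) / 2) (by norm_num) (by norm_num)).mul_left
      (e / 2)
    have h2 : e / 2 * (1 - 1 / 2)⁻¹ = e := by norm_num
    rw [h2] at h1
    refine h1.congr_fun ?_ |> id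
    intro k
    rw [pow_succ]
    ring
  -- the radii
  set b : ℕ → ℝ := fun k => (c k).toReal + e * (1 / 2) ^ (k + 1) with hb
  have hb0 : ∀ k, 0 < b k := fun k => by
    have : 0 ≤ (c k).toReal := ENNReal.toReal_nonneg
    simp only [hb]
    positivity
  have hbs : Summable b := hD.add hgs.summable
  have hbt : ∑' k, b k ≤ 2 * e := by
    rw [hD.tsum_add hgs.summable, hgs.tsum_eq]
    linarith
  have hpow : ∀ k, (b k ^ (1 / β)) ^ β = b k := by
    intro k
    rw [← Real.rpow_mul (hb0 k).le, one_div, inv_mul_cancel₀ hβ.ne', Real.rpow_one]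
  refine ⟨fun k => sInf (t k), fun k => b k ^ (1 / β), ?_, ?_, ?_, ?_⟩
  · intro k
    refine ⟨Real.rpow_pos_of_pos (hb0 k) _, ?_⟩
    by_contra hcon
    push Not at hcon
    have h1 : ρ ^ β ≤ (b k ^ (1 / β)) ^ β := Real.rpow_le_rpow hρ.le hcon hβ.le
    rw [hpow k] at h1
    have h2 : b k ≤ ∑' k, b k := hbs.le_tsum k fun j _ => (hb0 j).le
    linarith
  · simp only [hpow]
    exact hbs
  · simp only [hpow]
    linarith
  · intro s hs
    obtain ⟨k, hk⟩ := mem_iUnion.1 (hcov hs)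
    have hne : (t k).Nonempty := ⟨s, hk⟩
    have hcd : c k = Metric.ediam (t k) ^ β := by
      simp only [hc, hne, iSup_pos]
    have hdtop : Metric.ediam (t k) ≠ ∞ := by
      intro h
      apply hck k
      rw [hcd, h, ENNReal.top_rpow_of_pos hβ]
    have hdr : (Metric.ediam (t k)).toReal < b k ^ (1 / β) := by
      have h1 : (Metric.ediam (t k)).toReal ^ β < b k := by
        rw [ENNReal.toReal_rpow, ← hcd]
        simp only [hb]
        have : 0 < e * (1 / 2) ^ (k + 1) := by positivity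
        linarith
      by_contra hcon
      push Not at hcon
      have h2 : (b k ^ (1 / β)) ^ β ≤ (Metric.ediam (t k)).toReal ^ β :=
        Real.rpow_le_rpow (Real.rpow_nonneg (hb0 k).le _) hcon hβ.le
      rw [hpow k] at h2
      linarith
    have hdist : ∀ y ∈ t k, |s - y| ≤ (Metric.ediam (t k)).toReal := by
      intro y hy
      have h1 := Metric.edist_le_ediam_of_mem hk hy
      have h2 := ENNReal.toReal_mono hdtop h1
      rw [← dist_edist, Real.dist_eq] at h2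
      exact h2
    have hlow : ∀ y ∈ t k, s - (Metric.ediam (t k)).toReal ≤ y := by
      intro y hy
      have := (abs_le.1 (hdist y hy)).2
      linarith
    refine ⟨k, csInf_le ⟨_, hlow⟩ hk, ?_⟩
    have h1 : s - (Metric.ediam (t k)).toReal ≤ sInf (t k) := le_csInf hne hlow
    show s < sInf (t k) + b k ^ (1 / β)
    linarith

end Pool.Agent.Helper7.NU
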