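import Pool.Agent.Helper7.NT.Defs

/-!
Definitions: orders of the dissipation, of the force and of the norms near a time, seen from the
left; the weighted mean square distance used in the proof.
-/

open MeasureTheory Set Filter Topology
open scoped ENNReal

namespace Pool.Agent.Helper7.NU

open Pool.Agent.Helper52.NSE Pool.Agent.Helper7.NT

/-- `limsup_{s → t-} (t - s)^(-α) ∫_s^t ‖∇u‖² < ∞`. -/
def DissipationOrder (Ω : Set E3) (G : ℝ → Fin 3 → E3 → E3) (α t : ℝ) : Prop :=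
  ∃ M δ : ℝ, 0 < δ ∧ ∀ s ∈ Ioo (t - δ) t, 0 ≤ s →
    ∫ τ in s..t, gradSq Ω (G τ) ≤ M * (t - s) ^ α

/-- `limsup_{s → t-} (t - s)^(-β) ∫_s^t ‖f‖² < ∞`. -/
def ForceOrder (Ω : Set E3) (f : ℝ → E3 → E3) (β t : ℝ) : Prop :=
  ∃ M δ : ℝ, 0 < δ ∧ ∀ s ∈ Ioo (t - δ) t, 0 ≤ s →
    (∫ τ in s..t, ∫ x in Ω, ‖f τ x‖ ^ 2) ≤ M * (t - s) ^ β

/-- `ess limsup_{s → t-} (t - s)^((1 - 3/q)/2) ‖u(s)‖_{L^q(Ω)} < ∞` (for `q = ∞` the exponent is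
`1/2`, since `(∞ : ℝ≥0∞).toReal = 0`). -/
def NormOrder (Ω : Set E3) (u : ℝ → E3 → E3) (q : ℝ≥0∞) (t : ℝ) : Prop :=
  ∃ M δ : ℝ, 0 < δ ∧ ∀ᵐ s ∂(volume.restrict (Icc 0 t)), s ∈ Ioo (t - δ) t →
    lpNorm Ω q (u s) ≤ ENNReal.ofReal (M * (t - s) ^ (-((1 - 3 / q.toReal) / 2)))

/-- The time `t` is of Type I (seen from the left), in the sense of upper limits. -/
def TypeISup (Ω : Set E3) (u : ℝ → E3 → E3) (G : ℝ → Fin 3 → E3 → E3) (t : ℝ) : Prop :=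
  DissipationOrder Ω G (1 / 2) t ∨ ∃ q : ℝ≥0∞, 3 ≤ q ∧ NormOrder Ω u q t

/-- The mean square distance of `u` from `a` on `(s, t)`, with the weight `(t - τ)^(-1/2)`. -/
noncomputable def VV (Ω : Set E3) (u : ℝ → E3 → E3) (a : E3 → E3) (s t : ℝ) : ℝ :=
  (t - s) ^ (-(1 / 2) : ℝ) *
    ∫ τ in s..t, (t - τ) ^ (-(1 / 2) : ℝ) * nm Ω (fun x => u τ x - a x) ^ 2

/-- The bound for the flux near the time `t`. -/
def FluxBound (Ω : Set E3) (u : ℝ → E3 → E3) (G : ℝ → Fin 3 → E3 → E3) (κ B δ t : ℝ) : Prop :=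
  ∀ s ∈ Ioo (t - δ) t, 0 ≤ s → ∀ (a : E3 → E3) (A : Fin 3 → E3 → E3), MemH1s Ω a A →
    ∀ τ ∈ Icc s t, |∫ σ in s..τ, Bf Ω (u σ) A (fun x => u σ x - a x)| ≤
      B * (t - s) ^ (-κ) * ((∫ σ in s..t, gsq Ω (G σ)) + (t - s) * gsq Ω A) +
        1 / 64 * VV Ω u a s t

/-- the positive part of `D(t) - D(s)` -/
noncomputable def pp (D : ℝ → ℝ) (t s : ℝ) : ℝ := max (D t - D s) 0

/-- the weighted mean value of a function on `(s, t)` -/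
noncomputable def wm (φ : ℝ → ℝ) (s t : ℝ) : ℝ :=
  (t - s) ^ (-(1 / 2) : ℝ) * ∫ τ in s..t, (t - τ) ^ (-(1 / 2) : ℝ) * φ τ

end Pool.Agent.Helper7.NU
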