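import Pool.Agent.Helper7.NU.Defs

/-!
Module Hdy: a Hardy inequality.
-/

open MeasureTheory Set Filter Topology
open scoped ENNReal

namespace Pool.Agent.Helper7.NU

theorem Hdy_cont {t r : ℝ} {S : Set ℝ} (hS : ∀ s ∈ S, s < t) :
    ContinuousOn (fun s : ℝ => (t - s) ^ r) S := by
  refine ContinuousOn.rpow_const (by fun_prop) ?_
  intro s hs
  left
  have := hS s hs
  exact (by linarith : (0 : ℝ) < t - s).ne'

theorem Hdy_inner {a τ t : ℝ} (haτ : a ≤ τ) (hτt : τ < t) :
    ∫⁻ s in Ioo a τ, ENNReal.ofReal ((t - s) ^ (-(5 / 4) : ℝ)) ≤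
      ENNReal.ofReal (4 * (t - τ) ^ (-(1 / 4) : ℝ)) := by
  have hcont : ContinuousOn (fun s : ℝ => (t - s) ^ (-(5 / 4) : ℝ)) (Icc a τ) :=
    Hdy_cont fun s hs => lt_of_le_of_lt hs.2 hτt
  have hint : IntegrableOn (fun s : ℝ => (t - s) ^ (-(5 / 4) : ℝ)) (Ioo a τ) :=
    (hcont.integrableOn_Icc).mono_set Ioo_subset_Icc_self
  have hnn : 0 ≤ᵐ[volume.restrict (Ioo a τ)] fun s : ℝ => (t - s) ^ (-(5 / 4) : ℝ) := by
    filter_upwards [ae_restrict_mem measurableSet_Ioo] with s hs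
    have : 0 ≤ t - s := by linarith [hs.2]
    exact Real.rpow_nonneg this _
  rw [← ofReal_integral_eq_lintegral_ofReal hint hnn]
  apply ENNReal.ofReal_le_ofReal
  rw [← integral_Ioc_eq_integral_Ioo, ← intervalIntegral.integral_of_le haτ,
    intervalIntegral.integral_comp_sub_left (fun x : ℝ => x ^ (-(5 / 4) : ℝ)) t, integral_rpow]
  · have h1 : (-(5 / 4) : ℝ) + 1 = -(1 / 4) := by norm_num
    rw [h1]
    have h2 : 0 ≤ (t - a) ^ (-(1 / 4) : ℝ) := Real.rpow_nonneg (by linarith) _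
    rw [div_le_iff_of_neg (by norm_num)]
    linarith
  · right
    refine ⟨by norm_num, ?_⟩
    rw [Set.uIcc_of_le (by linarith), Set.mem_Icc, not_and_or, not_le]
    left
    linarith

theorem Hdy_rpow_int {a t r : ℝ} (hat : a < t) (hr : -1 < r) :
    IntegrableOn (fun s : ℝ => (t - s) ^ r) (Ioo a t) := by
  have h1 : IntervalIntegrable (fun x : ℝ => x ^ r) volume 0 (t - a) :=
    intervalIntegral.intervalIntegrable_rpow' hr
  have h2 : IntervalIntegrable (fun s : ℝ => (t - s) ^ r) volume (t - 0) (t - (t - a)) :=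
    h1.comp_sub_left t
  rw [sub_zero, sub_sub_cancel] at h2
  have h3 := h2.symm
  rw [intervalIntegrable_iff_integrableOn_Ioo_of_le hat.le] at h3
  exact h3

theorem Hdy_mul_int {a t r K : ℝ} (hat : a < t) (hr : -1 < r) {φ : ℝ → ℝ}
    (hm : AEStronglyMeasurable φ (volume.restrict (Ioo a t)))
    (h0 : ∀ s ∈ Ioo a t, 0 ≤ φ s) (hK : ∀ s ∈ Ioo a t, φ s ≤ K) :
    IntegrableOn (fun s : ℝ => (t - s) ^ r * φ s) (Ioo a t) := by
  refine Integrable.mul_bdd (c := K) (Hdy_rpow_int hat hr) hm ?_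
  filter_upwards [ae_restrict_mem measurableSet_Ioo] with s hs
  rw [Real.norm_eq_abs, abs_of_nonneg (h0 s hs)]
  exact hK s hs

theorem hardy {a t K : ℝ} (hat : a < t) {φ R : ℝ → ℝ}
    (hm : AEStronglyMeasurable φ (volume.restrict (Ioo a t)))
    (h0 : ∀ s ∈ Ioo a t, 0 ≤ φ s) (hK : ∀ s ∈ Ioo a t, φ s ≤ K)
    (hR : IntegrableOn (fun s => (t - s) ^ (-(3 / 4) : ℝ) * R s) (Ioo a t))
    (hineq : ∀ᵐ s ∂(volume.restrict (Ioo a t)), φ s ≤ R s + 1 / 16 * wm φ s t) :
    ∫ s in a..t, (t - s) ^ (-(3 / 4) : ℝ) * φ s ≤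
      4 / 3 * ∫ s in a..t, (t - s) ^ (-(3 / 4) : ℝ) * R s := by
  set S : Set ℝ := Ioo a t with hS
  set g : ℝ → ℝ := fun τ => (t - τ) ^ (-(1 / 2) : ℝ) * φ τ with hg
  have hgS : IntegrableOn g S := Hdy_mul_int hat (by norm_num) hm h0 hK
  have hg0 : ∀ τ ∈ S, 0 ≤ g τ := fun τ hτ =>
    mul_nonneg (Real.rpow_nonneg (by linarith [hτ.2]) _) (h0 τ hτ)
  have hJ : IntegrableOn (fun s : ℝ => (t - s) ^ (-(3 / 4) : ℝ) * φ s) S :=
    Hdy_mul_int hat (by norm_num) hm h0 hK
  have hJ0 : ∀ s ∈ S, 0 ≤ (t - s) ^ (-(3 / 4) : ℝ) * φ s := fun s hs =>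
    mul_nonneg (Real.rpow_nonneg (by linarith [hs.2]) _) (h0 s hs)
  -- the weighted mean
  have hwm : ∀ s ∈ S, (t - s) ^ (-(3 / 4) : ℝ) * wm φ s t =
      (t - s) ^ (-(5 / 4) : ℝ) * ∫ τ in s..t, g τ := by
    intro s hs
    have hts : 0 < t - s := by linarith [hs.2]
    unfold wm
    rw [← mul_assoc, ← Real.rpow_add hts,
      show (-(3 / 4) : ℝ) + -(1 / 2) = -(5 / 4) by norm_num]
  have hH0 : ∀ s ∈ S, 0 ≤ ∫ τ in s..t, g τ := by
    intro s hs
    rw [intervalIntegral.integral_of_le hs.2.le, integral_Ioc_eq_integral_Ioo]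
    exact setIntegral_nonneg measurableSet_Ioo fun τ hτ => hg0 τ ⟨hs.1.trans hτ.1, hτ.2⟩
  have hHm : AEStronglyMeasurable (fun s => (t - s) ^ (-(3 / 4) : ℝ) * wm φ s t)
      (volume.restrict S) := by
    have h1 : ContinuousOn (fun s => ∫ τ in s..t, g τ) (uIcc a t) := by
      apply intervalIntegral.continuousOn_primitive_interval_left
      rw [Set.uIcc_of_le hat.le, integrableOn_Icc_iff_integrableOn_Ioo]
      exact hgS
    have h2 : ContinuousOn (fun s => (t - s) ^ (-(5 / 4) : ℝ) * ∫ τ in s..t, g τ) S := by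
      refine (Hdy_cont fun s hs => hs.2).mul (h1.mono ?_)
      rw [Set.uIcc_of_le hat.le]
      exact Ioo_subset_Icc_self
    refine (h2.aestronglyMeasurable measurableSet_Ioo).congr ?_
    filter_upwards [ae_restrict_mem measurableSet_Ioo] with s hs
    exact (hwm s hs).symm
  -- Tonelli
  have hT : ∫⁻ s in S, ENNReal.ofReal ((t - s) ^ (-(3 / 4) : ℝ) * wm φ s t) ≤
      4 * ∫⁻ τ in S, ENNReal.ofReal ((t - τ) ^ (-(3 / 4) : ℝ) * φ τ) := by
    have e1 : ∫⁻ s in S, ENNReal.ofReal ((t - s) ^ (-(3 / 4) : ℝ) * wm φ s t) =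
        ∫⁻ s in S, ∫⁻ τ in S, (Ioi s).indicator
          (fun τ => ENNReal.ofReal ((t - s) ^ (-(5 / 4) : ℝ)) * ENNReal.ofReal (g τ)) τ := by
      refine setLIntegral_congr_fun measurableSet_Ioo fun s hs => ?_
      have hts : 0 < t - s := by linarith [hs.2]
      rw [hwm s hs, ENNReal.ofReal_mul (Real.rpow_nonneg hts.le _),
        lintegral_indicator measurableSet_Ioi, Measure.restrict_restrict measurableSet_Ioi]
      have e2 : Ioi s ∩ S = Ioo s t := by
        ext τ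
        simp only [hS, mem_inter_iff, mem_Ioi, mem_Ioo]
        constructor
        · rintro ⟨h1, h2, h3⟩
          exact ⟨h1, h3⟩
        · rintro ⟨h1, h2⟩
          exact ⟨h1, hs.1.trans h1, h2⟩
      rw [e2, lintegral_const_mul' _ _ ENNReal.ofReal_ne_top]
      congr 1
      rw [intervalIntegral.integral_of_le hs.2.le, integral_Ioc_eq_integral_Ioo]
      refine ofReal_integral_eq_lintegral_ofReal
        (hgS.mono_set (Ioo_subset_Ioo_left hs.1.le)) ?_
      filter_upwards [ae_restrict_mem measurableSet_Ioo] with τ hτ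
      exact hg0 τ ⟨hs.1.trans hτ.1, hτ.2⟩
    rw [e1, lintegral_lintegral_swap]
    · have e3 : ∀ τ ∈ S, ∫⁻ s in S, (Ioi s).indicator
          (fun τ => ENNReal.ofReal ((t - s) ^ (-(5 / 4) : ℝ)) * ENNReal.ofReal (g τ)) τ ≤
          4 * ENNReal.ofReal ((t - τ) ^ (-(3 / 4) : ℝ) * φ τ) := by
        intro τ hτ
        have htτ : 0 < t - τ := by linarith [hτ.2]
        have e4 : ∀ s, (Ioi s).indicator
            (fun τ => ENNReal.ofReal ((t - s) ^ (-(5 / 4) : ℝ)) * ENNReal.ofReal (g τ)) τ =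
            (Iio τ).indicator
              (fun s => ENNReal.ofReal ((t - s) ^ (-(5 / 4) : ℝ)) * ENNReal.ofReal (g τ)) s := by
          intro s
          simp only [indicator_apply, mem_Ioi, mem_Iio]
        simp only [e4]
        rw [lintegral_indicator measurableSet_Iio, Measure.restrict_restrict measurableSet_Iio]
        have e5 : Iio τ ∩ S = Ioo a τ := by
          ext s
          simp only [hS, mem_inter_iff, mem_Iio, mem_Ioo]
          constructor
          · rintro ⟨h1, h2, h3⟩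
            exact ⟨h2, h1⟩
          · rintro ⟨h1, h2⟩
            exact ⟨h2, h1, h2.trans hτ.2⟩
        rw [e5, lintegral_mul_const' _ _ ENNReal.ofReal_ne_top]
        calc (∫⁻ s in Ioo a τ, ENNReal.ofReal ((t - s) ^ (-(5 / 4) : ℝ))) * ENNReal.ofReal (g τ)
            ≤ ENNReal.ofReal (4 * (t - τ) ^ (-(1 / 4) : ℝ)) * ENNReal.ofReal (g τ) :=
              mul_le_mul_left (Hdy_inner hτ.1.le hτ.2) _
          _ = ENNReal.ofReal (4 * ((t - τ) ^ (-(3 / 4) : ℝ) * φ τ)) := by
              rw [← ENNReal.ofReal_mul (by positivity)]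
              congr 1
              simp only [hg]
              rw [mul_assoc, ← mul_assoc ((t - τ) ^ (-(1 / 4) : ℝ)), ← Real.rpow_add htτ]
              norm_num
          _ = 4 * ENNReal.ofReal ((t - τ) ^ (-(3 / 4) : ℝ) * φ τ) := by
              rw [ENNReal.ofReal_mul (by norm_num)]
              norm_num
      refine (setLIntegral_mono' measurableSet_Ioo e3).trans ?_
      rw [lintegral_const_mul' _ _ (by norm_num)]
    · have m1 : AEMeasurable (fun p : ℝ × ℝ => ENNReal.ofReal ((t - p.1) ^ (-(5 / 4) : ℝ)) *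
          ENNReal.ofReal (g p.2)) ((volume.restrict S).prod (volume.restrict S)) := by
        have h2 : Measurable fun p : ℝ × ℝ => ENNReal.ofReal ((t - p.1) ^ (-(5 / 4) : ℝ)) := by
          fun_prop
        have h1 : AEMeasurable (fun τ => ENNReal.ofReal (g τ)) (volume.restrict S) :=
          hgS.aestronglyMeasurable.aemeasurable.ennreal_ofReal
        have h3 : AEMeasurable (fun p : ℝ × ℝ => ENNReal.ofReal (g p.2))
            ((volume.restrict S).prod (volume.restrict S)) := h1.comp_snd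
        exact h2.aemeasurable.mul h3
      have m2 : MeasurableSet {p : ℝ × ℝ | p.1 < p.2} :=
        measurableSet_lt measurable_fst measurable_snd
      refine (m1.indicator m2).congr (ae_of_all _ fun p => ?_)
      simp only [indicator_apply, mem_ofPred_eq, mem_Ioi, Function.uncurry]
  -- integrability of the mean
  have hH0' : ∀ s ∈ S, 0 ≤ (t - s) ^ (-(3 / 4) : ℝ) * wm φ s t := by
    intro s hs
    rw [hwm s hs]
    exact mul_nonneg (Real.rpow_nonneg (by linarith [hs.2]) _) (hH0 s hs)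
  have hae0 : 0 ≤ᵐ[volume.restrict S] fun s => (t - s) ^ (-(3 / 4) : ℝ) * wm φ s t := by
    filter_upwards [ae_restrict_mem measurableSet_Ioo] with s hs
    exact hH0' s hs
  have hJae0 : 0 ≤ᵐ[volume.restrict S] fun s => (t - s) ^ (-(3 / 4) : ℝ) * φ s := by
    filter_upwards [ae_restrict_mem measurableSet_Ioo] with s hs
    exact hJ0 s hs
  have hJl : ∫⁻ τ in S, ENNReal.ofReal ((t - τ) ^ (-(3 / 4) : ℝ) * φ τ) =
      ENNReal.ofReal (∫ τ in S, (t - τ) ^ (-(3 / 4) : ℝ) * φ τ) :=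
    (ofReal_integral_eq_lintegral_ofReal hJ hJae0).symm
  have hHi : IntegrableOn (fun s => (t - s) ^ (-(3 / 4) : ℝ) * wm φ s t) S := by
    refine ⟨hHm, ?_⟩
    rw [hasFiniteIntegral_iff_ofReal hae0]
    refine lt_of_le_of_lt hT ?_
    rw [hJl]
    exact ENNReal.mul_lt_top (by norm_num) ENNReal.ofReal_lt_top
  have hJ1 : 0 ≤ ∫ τ in S, (t - τ) ^ (-(3 / 4) : ℝ) * φ τ := integral_nonneg_of_ae hJae0
  have hHle : ∫ s in S, (t - s) ^ (-(3 / 4) : ℝ) * wm φ s t ≤
      4 * ∫ τ in S, (t - τ) ^ (-(3 / 4) : ℝ) * φ τ := by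
    rw [hJl, ← ofReal_integral_eq_lintegral_ofReal hHi hae0] at hT
    have h4 : (4 : ℝ≥0∞) = ENNReal.ofReal 4 := by norm_num
    rw [h4, ← ENNReal.ofReal_mul (by norm_num)] at hT
    exact (ENNReal.ofReal_le_ofReal_iff (by positivity)).1 hT
  -- conclusion
  have hmain : ∫ s in S, (t - s) ^ (-(3 / 4) : ℝ) * φ s ≤
      ∫ s in S, ((t - s) ^ (-(3 / 4) : ℝ) * R s +
        1 / 16 * ((t - s) ^ (-(3 / 4) : ℝ) * wm φ s t)) := by
    refine integral_mono_ae hJ (hR.add (hHi.const_mul _)) ?_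
    filter_upwards [ae_restrict_mem measurableSet_Ioo, hineq] with s hs h
    have h5 : 0 ≤ (t - s) ^ (-(3 / 4) : ℝ) := Real.rpow_nonneg (by linarith [hs.2]) _
    have := mul_le_mul_of_nonneg_left h h5
    linarith
  rw [integral_add hR (hHi.const_mul _), integral_const_mul] at hmain
  rw [intervalIntegral.integral_of_le hat.le, intervalIntegral.integral_of_le hat.le,
    integral_Ioc_eq_integral_Ioo, integral_Ioc_eq_integral_Ioo]
  linarith

end Pool.Agent.Helper7.NU
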