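import Pool.Agent.Helper7.NU.Defs
import Pool.Agent.Helper7.NU.Yng
import Pool.Agent.Helper7.NU.Vms
import Pool.Agent.Helper7.NT.HoS
import Pool.Agent.Helper7.NT.Sob
import Pool.Agent.Helper7.NT.Vsp

/-!
Module HoD: the bound for the flux from the order of the dissipation.
-/

open MeasureTheory Set Filter Topology
open scoped ENNReal

namespace Pool.Agent.Helper7.NU

open Pool.Agent.Helper52.NSE Pool.Agent.Helper7.NT

variable {Ω : Set E3} {ν T : ℝ} {u₀ : E3 → E3} {f u : ℝ → E3 → E3} {G : ℝ → Fin 3 → E3 → E3}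

/-- Hoelder's inequality with the exponents `1/2, 1/4, 1/4` -/
theorem hoD_holder {μ : Measure ℝ} {U W H : ℝ → ℝ≥0∞} (hU : AEMeasurable U μ)
    (hW : AEMeasurable W μ) (hH : AEMeasurable H μ) :
    ∫⁻ σ, U σ ^ (1 / 2 : ℝ) * W σ ^ (1 / 4 : ℝ) * H σ ^ (1 / 4 : ℝ) ∂μ ≤
      (∫⁻ σ, U σ ∂μ) ^ (1 / 2 : ℝ) * (∫⁻ σ, W σ ∂μ) ^ (1 / 4 : ℝ) *
        (∫⁻ σ, H σ ∂μ) ^ (1 / 4 : ℝ) := by
  have key := ENNReal.lintegral_prod_norm_pow_le (μ := μ) (Finset.univ : Finset (Fin 3))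
    (f := ![U, W, H])
    (by
      intro i _
      fin_cases i
      · exact hU
      · exact hW
      · exact hH)
    (p := ![1 / 2, 1 / 4, 1 / 4])
    (by
      rw [Fin.sum_univ_three]
      show (1 / 2 : ℝ) + 1 / 4 + 1 / 4 = 1
      norm_num)
    (by
      intro i _
      fin_cases i
      · show (0 : ℝ) ≤ 1 / 2
        norm_num
      · show (0 : ℝ) ≤ 1 / 4
        norm_num
      · show (0 : ℝ) ≤ 1 / 4
        norm_num)
  simp only [Fin.prod_univ_three] at key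
  exact key

theorem hoD_th : th 6 = 1 / 4 := by
  unfold th
  norm_num

theorem hoD_half {x : ℝ} (hx : 0 ≤ x) :
    ENNReal.ofReal (x ^ 2) ^ (1 / 2 : ℝ) = ENNReal.ofReal x := by
  rw [ENNReal.ofReal_pow hx, ← ENNReal.rpow_natCast, ← ENNReal.rpow_mul]
  norm_num

theorem hoD_quarter {x : ℝ} (hx : 0 ≤ x) :
    ENNReal.ofReal (x ^ 2) ^ (1 / 4 : ℝ) = ENNReal.ofReal x ^ (1 / 2 : ℝ) := by
  rw [ENNReal.ofReal_pow hx, ← ENNReal.rpow_natCast, ← ENNReal.rpow_mul]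
  norm_num

/-- the mean square distance without weight -/
theorem hoD_VV (h : IsWeakSolution Ω ν T u₀ f u G) {a : E3 → E3}
    (ha : MemLp a 2 (volume.restrict Ω)) {s t : ℝ} (hs : 0 ≤ s) (hst : s < t) (ht : t ≤ T) :
    ∫ τ in s..t, nm Ω (fun x => u τ x - a x) ^ 2 ≤ (t - s) * VV Ω u a s t := by
  obtain ⟨K, hK0, hK⟩ := nmsq_bdd h ha
  have hts : 0 < t - s := by linarith
  have hsub : Ioc s t ⊆ Icc 0 T := fun x hx => ⟨hs.trans hx.1.le, hx.2.trans ht⟩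
  have hm : AEStronglyMeasurable (fun τ => nm Ω (fun x => u τ x - a x) ^ 2)
      (volume.restrict (Ioc s t)) := (nmsq_meas h ha).mono_set hsub
  have hb : ∀ τ ∈ Ioc s t, |nm Ω (fun x => u τ x - a x) ^ 2| ≤ K := by
    intro τ hτ
    rw [abs_of_nonneg (by positivity)]
    exact hK τ (hsub hτ)
  have hw := weight_int hst hm hb
  have hi : IntervalIntegrable (fun τ => nm Ω (fun x => u τ x - a x) ^ 2) volume s t := by
    rw [intervalIntegrable_iff_integrableOn_Ioc_of_le hst.le]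
    refine Integrable.of_bound hm K ?_
    filter_upwards [ae_restrict_mem measurableSet_Ioc] with τ hτ
    exact hb τ hτ
  have h1 : (t - s) ^ (-(1 / 2) : ℝ) * ∫ τ in s..t, nm Ω (fun x => u τ x - a x) ^ 2 ≤
      ∫ τ in s..t, (t - τ) ^ (-(1 / 2) : ℝ) * nm Ω (fun x => u τ x - a x) ^ 2 := by
    rw [← intervalIntegral.integral_const_mul]
    refine intervalIntegral.integral_mono_on_of_le_Ioo hst.le (hi.const_mul _) hw ?_
    intro τ hτ
    refine mul_le_mul_of_nonneg_right ?_ (by positivity)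
    exact Real.rpow_le_rpow_of_nonpos (by linarith [hτ.2]) (by linarith [hτ.1]) (by norm_num)
  have h2 := mul_le_mul_of_nonneg_left h1 (Real.rpow_nonneg hts.le (-(1 / 2) : ℝ))
  unfold VV
  rw [← mul_assoc, ← Real.rpow_add hts] at h2
  have e : (-(1 / 2) + -(1 / 2) : ℝ) = -1 := by norm_num
  rw [e, Real.rpow_neg_one] at h2
  have h3 := mul_le_mul_of_nonneg_left h2 hts.le
  rwa [← mul_assoc, mul_inv_cancel₀ hts.ne', one_mul] at h3

theorem hoD_VV_nonneg {a : E3 → E3} {s t : ℝ} (hst : s ≤ t) : 0 ≤ VV Ω u a s t := by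
  unfold VV
  refine mul_nonneg (Real.rpow_nonneg (by linarith) _) ?_
  refine intervalIntegral.integral_nonneg hst fun τ hτ => ?_
  exact mul_nonneg (Real.rpow_nonneg (by linarith [hτ.2]) _) (by positivity)

/-- the estimate before the order of the dissipation is used -/
theorem hoD_main (hO : IsOpen Ω) (hb : Bornology.IsBounded Ω)
    (h : IsWeakSolution Ω ν T u₀ f u G) :
    ∃ C : ℝ, 0 ≤ C ∧ ∀ s t : ℝ, 0 ≤ s → s < t → t ≤ T →
      ∀ (a : E3 → E3) (A : Fin 3 → E3 → E3), MemH1s Ω a A → ∀ τ ∈ Icc s t,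
      |∫ σ in s..τ, Bf Ω (u σ) A (fun x => u σ x - a x)| ≤
        C * Real.sqrt (gsq Ω A) * (∫ σ in s..t, gsq Ω (G σ)) ^ (1 / 2 : ℝ) *
          (∫ σ in s..t, nm Ω (fun x => u σ x - a x) ^ 2) ^ (1 / 4 : ℝ) *
          ((∫ σ in s..t, gsq Ω (G σ)) + (t - s) * gsq Ω A) ^ (1 / 4 : ℝ) := by
  obtain ⟨CS, hCS0, hCS⟩ := sobolev hO hb
  refine ⟨3 * (CS ^ 2) ^ (1 / 2 : ℝ) * (2 * CS ^ 2) ^ (1 / 4 : ℝ), by positivity, ?_⟩
  intro s t hs hst ht a A ha τ hτ
  have hAm : ∀ i, MemLp (A i) 2 (volume.restrict Ω) := ha.grad_memLp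
  have haL : MemLp a 2 (volume.restrict Ω) := ha.toL2.memLp
  have hts : 0 < t - s := by linarith
  have hgA : 0 ≤ gsq Ω A := gsq_nonneg Ω A
  have hsub : Ioc s t ⊆ Icc 0 T := fun x hx => ⟨hs.trans hx.1.le, hx.2.trans ht⟩
  set U : ℝ → ℝ≥0∞ := fun σ => ENNReal.ofReal (CS ^ 2 * gsq Ω (G σ)) with hUdef
  set W : ℝ → ℝ≥0∞ := fun σ => ENNReal.ofReal (nm Ω (fun x => u σ x - a x) ^ 2) with hWdef
  set H : ℝ → ℝ≥0∞ := fun σ =>
    ENNReal.ofReal (CS ^ 2 * (2 * gsq Ω (G σ) + 2 * gsq Ω A)) with hHdef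
  set K : ℝ≥0∞ := 3 * ENNReal.ofReal (Real.sqrt (gsq Ω A)) with hK
  -- pointwise bound
  have hpt : ∀ᵐ σ ∂(volume.restrict (Ioc s t)),
      ‖Bf Ω (u σ) A (fun x => u σ x - a x)‖ₑ ≤
        K * (U σ ^ (1 / 2 : ℝ) * W σ ^ (1 / 4 : ℝ) * H σ ^ (1 / 4 : ℝ)) := by
    have hae := ae_restrict_of_ae_restrict_of_subset hsub h.grad_mem
    filter_upwards [hae] with σ h1
    have hgG : 0 ≤ gsq Ω (G σ) := gsq_nonneg Ω (G σ)
    have h3 := memH1s_sub h1 ha
    have h4 : MemLp (fun x => u σ x - a x) 2 (volume.restrict Ω) := h3.toL2.memLp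
    have h5 := Bf_le_q (q := 6) (by norm_num) (v := u σ) (w := fun x => u σ x - a x) (A := A)
      h1.1 h3.1 hAm
    rw [hoD_th] at h5
    have e1 : (2 * (1 / 4) : ℝ) = 1 / 2 := by norm_num
    have e2 : (1 - 1 / 2 : ℝ) = 1 / 2 := by norm_num
    rw [e1, e2] at h5
    refine h5.trans ?_
    have eU : U σ ^ (1 / 2 : ℝ) = ENNReal.ofReal (CS * Real.sqrt (gsq Ω (G σ))) := by
      have : U σ = ENNReal.ofReal ((CS * Real.sqrt (gsq Ω (G σ))) ^ 2) := by
        rw [mul_pow, Real.sq_sqrt hgG]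
      rw [this, hoD_half (by positivity)]
    have eW : W σ ^ (1 / 4 : ℝ) =
        ENNReal.ofReal (nm Ω (fun x => u σ x - a x)) ^ (1 / 2 : ℝ) :=
      hoD_quarter (nm_nonneg _ _)
    have eH : H σ ^ (1 / 4 : ℝ) =
        ENNReal.ofReal (CS * Real.sqrt (2 * gsq Ω (G σ) + 2 * gsq Ω A)) ^ (1 / 2 : ℝ) := by
      have : H σ = ENNReal.ofReal ((CS * Real.sqrt (2 * gsq Ω (G σ) + 2 * gsq Ω A)) ^ 2) := by
        rw [mul_pow, Real.sq_sqrt (by positivity)]
      rw [this, hoD_quarter (by positivity)]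
    rw [eU, eW, eH]
    have h6 : eLpNorm (u σ) 6 (volume.restrict Ω) ≤
        ENNReal.ofReal (CS * Real.sqrt (gsq Ω (G σ))) := hCS _ _ h1
    have h7 : eLpNorm (fun x => u σ x - a x) 6 (volume.restrict Ω) ≤
        ENNReal.ofReal (CS * Real.sqrt (2 * gsq Ω (G σ) + 2 * gsq Ω A)) := by
      refine (hCS _ _ h3).trans (ENNReal.ofReal_le_ofReal ?_)
      refine mul_le_mul_of_nonneg_left (Real.sqrt_le_sqrt ?_) hCS0.le
      exact gsq_sub_le h1.grad_memLp hAm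
    have h8 : eLpNorm (fun x => u σ x - a x) 2 (volume.restrict Ω) ^ (1 / 2 : ℝ) =
        ENNReal.ofReal (nm Ω (fun x => u σ x - a x)) ^ (1 / 2 : ℝ) := by
      rw [nm_eq h4]
    have h9 := ENNReal.rpow_le_rpow h7 (z := 1 / 2) (by norm_num)
    rw [h8]
    gcongr
  have hGint : IntegrableOn (fun σ => gsq Ω (G σ)) (Ioc s t) := h.gsq_int.mono_set hsub
  have hUi : IntegrableOn (fun σ => CS ^ 2 * gsq Ω (G σ)) (Ioc s t) := hGint.const_mul _
  have hcst : IntegrableOn (fun _ : ℝ => 2 * gsq Ω A) (Ioc s t) := by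
    rw [integrableOn_const_iff]
    right
    rw [Real.volume_Ioc]
    exact ENNReal.ofReal_lt_top
  have hHi : IntegrableOn (fun σ => CS ^ 2 * (2 * gsq Ω (G σ) + 2 * gsq Ω A)) (Ioc s t) :=
    ((hGint.const_mul 2).add hcst).const_mul _
  obtain ⟨KK, hKK0, hKK⟩ := nmsq_bdd h haL
  have hWm : AEStronglyMeasurable (fun τ => nm Ω (fun x => u τ x - a x) ^ 2)
      (volume.restrict (Ioc s t)) := (nmsq_meas h haL).mono_set hsub
  have hWi : IntegrableOn (fun τ => nm Ω (fun x => u τ x - a x) ^ 2) (Ioc s t) := by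
    refine Integrable.of_bound hWm KK ?_
    filter_upwards [ae_restrict_mem measurableSet_Ioc] with τ hτ
    rw [Real.norm_eq_abs, abs_of_nonneg (by positivity)]
    exact hKK τ (hsub hτ)
  set E := ∫ σ in s..t, gsq Ω (G σ) with hE
  set N := ∫ σ in s..t, nm Ω (fun x => u σ x - a x) ^ 2 with hN
  have hE0 : 0 ≤ E := intervalIntegral.integral_nonneg hst.le fun x _ => gsq_nonneg _ _
  have hN0 : 0 ≤ N := intervalIntegral.integral_nonneg hst.le fun x _ => by positivity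
  have iU : ∫⁻ σ in Ioc s t, U σ = ENNReal.ofReal (CS ^ 2 * E) := by
    rw [hUdef, ← ofReal_integral_eq_lintegral_ofReal hUi (Eventually.of_forall fun σ => by
      have := gsq_nonneg Ω (G σ)
      positivity)]
    rw [← intervalIntegral.integral_of_le hst.le, intervalIntegral.integral_const_mul]
  have iW : ∫⁻ σ in Ioc s t, W σ = ENNReal.ofReal N := by
    rw [hWdef, ← ofReal_integral_eq_lintegral_ofReal hWi (Eventually.of_forall fun σ => by
      positivity)]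
    rw [← intervalIntegral.integral_of_le hst.le]
  have iH : ∫⁻ σ in Ioc s t, H σ = ENNReal.ofReal (2 * CS ^ 2 * (E + (t - s) * gsq Ω A)) := by
    rw [hHdef, ← ofReal_integral_eq_lintegral_ofReal hHi (Eventually.of_forall fun σ => by
      have := gsq_nonneg Ω (G σ)
      positivity)]
    rw [← intervalIntegral.integral_of_le hst.le]
    have i1 : IntervalIntegrable (fun σ => gsq Ω (G σ)) volume s t := ii_of h.gsq_int hs hst.le ht
    rw [intervalIntegral.integral_const_mul,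
      intervalIntegral.integral_add (i1.const_mul 2) (by simp),
      intervalIntegral.integral_const_mul, intervalIntegral.integral_const]
    simp only [smul_eq_mul]
    congr 1
    ring
  -- the estimate in `ℝ≥0∞`
  have hmain : ‖∫ σ in s..τ, Bf Ω (u σ) A (fun x => u σ x - a x)‖ₑ ≤
      K * (ENNReal.ofReal (CS ^ 2 * E) ^ (1 / 2 : ℝ) * ENNReal.ofReal N ^ (1 / 4 : ℝ) *
        ENNReal.ofReal (2 * CS ^ 2 * (E + (t - s) * gsq Ω A)) ^ (1 / 4 : ℝ)) := by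
    rw [intervalIntegral.integral_of_le hτ.1]
    refine (enorm_integral_le_lintegral_enorm _).trans ?_
    refine (lintegral_mono_set (Ioc_subset_Ioc_right hτ.2)).trans ?_
    refine (lintegral_mono_ae hpt).trans ?_
    have hKt : K ≠ ⊤ := by
      rw [hK]
      exact ENNReal.mul_ne_top (by norm_num) ENNReal.ofReal_ne_top
    rw [lintegral_const_mul' _ _ hKt, ← iU, ← iW, ← iH]
    refine mul_le_mul_right ?_ K
    exact hoD_holder hUi.1.aemeasurable.ennreal_ofReal hWm.aemeasurable.ennreal_ofReal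
      hHi.1.aemeasurable.ennreal_ofReal
  -- back to the reals
  have e3 : (3 : ℝ≥0∞) = ENNReal.ofReal 3 := by simp
  rw [hK, e3, ENNReal.ofReal_rpow_of_nonneg (by positivity) (by norm_num),
    ENNReal.ofReal_rpow_of_nonneg hN0 (by norm_num),
    ENNReal.ofReal_rpow_of_nonneg (by positivity) (by norm_num),
    ← ENNReal.ofReal_mul (by positivity), ← ENNReal.ofReal_mul (by positivity),
    ← ENNReal.ofReal_mul (by positivity), ← ENNReal.ofReal_mul (by positivity),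
    Real.enorm_eq_ofReal_abs, ENNReal.ofReal_le_ofReal_iff (by positivity)] at hmain
  refine hmain.trans (le_of_eq ?_)
  rw [Real.mul_rpow (by positivity) hE0, Real.mul_rpow (by positivity) (by positivity)]
  ring

theorem flux_diss (hO : IsOpen Ω) (hb : Bornology.IsBounded Ω)
    (h : IsWeakSolution Ω ν T u₀ f u G) {β t : ℝ} (hβ0 : 0 ≤ β) (hβ : β ≤ 1 / 2)
    (ht : t ∈ Ioc 0 T) (hR : DissipationOrder Ω G ((1 + 3 * β) / 5) t) :
    ∃ B δ : ℝ, 0 ≤ B ∧ 0 < δ ∧ FluxBound Ω u G ((1 - 2 * β) / 5) B δ t := by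
  obtain ⟨M, δ, hδ, hM⟩ := hR
  obtain ⟨C, hC0, hC⟩ := hoD_main hO hb h
  obtain ⟨B, hB0, hB⟩ := young (C := C * |M| ^ (1 / 2 : ℝ)) (by positivity)
  refine ⟨B, δ, hB0, hδ, ?_⟩
  intro s hs hs0 a A ha τ hτ
  have hst : s < t := hs.2
  have hts : 0 < t - s := by linarith
  have hgA : 0 ≤ gsq Ω A := gsq_nonneg Ω A
  have hmain := hC s t hs0 hst ht.2 a A ha τ hτ
  have hEM : ∫ σ in s..t, gsq Ω (G σ) ≤ M * (t - s) ^ ((1 + 3 * β) / 5) := hM s hs hs0
  have hN := hoD_VV h ha.toL2.memLp hs0 hst ht.2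
  set E := ∫ σ in s..t, gsq Ω (G σ) with hE
  set N := ∫ σ in s..t, nm Ω (fun x => u σ x - a x) ^ 2 with hNdef
  have hE0 : 0 ≤ E := intervalIntegral.integral_nonneg hst.le fun x _ => gsq_nonneg _ _
  have hN0 : 0 ≤ N := intervalIntegral.integral_nonneg hst.le fun x _ => by positivity
  have hV0 : 0 ≤ VV Ω u a s t := hoD_VV_nonneg hst.le
  set V := VV Ω u a s t with hVdef
  set X := E + (t - s) * gsq Ω A with hX
  have hX0 : 0 ≤ X := by positivity
  have hE1 : E ≤ |M| * (t - s) ^ ((1 + 3 * β) / 5) :=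
    hEM.trans (mul_le_mul_of_nonneg_right (le_abs_self M) (Real.rpow_nonneg hts.le _))
  have hE2 : E ^ (1 / 2 : ℝ) ≤ |M| ^ (1 / 2 : ℝ) * (t - s) ^ ((1 + 3 * β) / 10) := by
    refine (Real.rpow_le_rpow hE0 hE1 (by norm_num)).trans (le_of_eq ?_)
    rw [Real.mul_rpow (abs_nonneg _) (Real.rpow_nonneg hts.le _), ← Real.rpow_mul hts.le]
    congr 2
    ring
  have hA1 : Real.sqrt (gsq Ω A) ≤ X ^ (1 / 2 : ℝ) * (t - s) ^ (-(1 / 2) : ℝ) := by
    have h1 : gsq Ω A ≤ X * (t - s)⁻¹ := by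
      rw [← div_eq_mul_inv, le_div_iff₀ hts]
      rw [hX]
      nlinarith
    refine (Real.sqrt_le_sqrt h1).trans (le_of_eq ?_)
    rw [Real.sqrt_eq_rpow, Real.mul_rpow hX0 (inv_nonneg.2 hts.le), ← Real.rpow_neg_one,
      ← Real.rpow_mul hts.le]
    congr 2
    norm_num
  have hN1 : N ^ (1 / 4 : ℝ) ≤ (t - s) ^ (1 / 4 : ℝ) * V ^ (1 / 4 : ℝ) := by
    rw [← Real.mul_rpow hts.le hV0]
    exact Real.rpow_le_rpow hN0 hN (by norm_num)
  have hy := hB (1 / 4) (X * (t - s) ^ (-((1 - 2 * β) / 5))) V (by norm_num) (by norm_num)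
    (by positivity) hV0
  have e1 : (X * (t - s) ^ (-((1 - 2 * β) / 5))) ^ (1 - 1 / 4 : ℝ) =
      X ^ (3 / 4 : ℝ) * (t - s) ^ (-(3 / 4 * ((1 - 2 * β) / 5))) := by
    rw [Real.mul_rpow hX0 (Real.rpow_nonneg hts.le _), ← Real.rpow_mul hts.le]
    have e2 : (1 - 1 / 4 : ℝ) = 3 / 4 := by norm_num
    rw [e2]
    congr 2
    ring
  rw [e1] at hy
  have hXe : X ^ (3 / 4 : ℝ) = X ^ (1 / 2 : ℝ) * X ^ (1 / 4 : ℝ) := by
    rw [← Real.rpow_add_of_nonneg hX0 (by norm_num) (by norm_num)]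
    norm_num
  have hte : (t - s) ^ (-(3 / 4 * ((1 - 2 * β) / 5))) =
      (t - s) ^ (-(1 / 2) : ℝ) * (t - s) ^ ((1 + 3 * β) / 10) * (t - s) ^ (1 / 4 : ℝ) := by
    rw [← Real.rpow_add hts, ← Real.rpow_add hts]
    congr 1
    ring
  calc |∫ σ in s..τ, Bf Ω (u σ) A (fun x => u σ x - a x)|
      ≤ C * Real.sqrt (gsq Ω A) * E ^ (1 / 2 : ℝ) * N ^ (1 / 4 : ℝ) * X ^ (1 / 4 : ℝ) := hmain
    _ ≤ C * (X ^ (1 / 2 : ℝ) * (t - s) ^ (-(1 / 2) : ℝ)) *
          (|M| ^ (1 / 2 : ℝ) * (t - s) ^ ((1 + 3 * β) / 10)) *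
          ((t - s) ^ (1 / 4 : ℝ) * V ^ (1 / 4 : ℝ)) * X ^ (1 / 4 : ℝ) := by
        gcongr
    _ = C * |M| ^ (1 / 2 : ℝ) * (X ^ (3 / 4 : ℝ) *
          (t - s) ^ (-(3 / 4 * ((1 - 2 * β) / 5))) * V ^ (1 / 4 : ℝ)) := by
        rw [hXe, hte]
        ring
    _ ≤ B * (X * (t - s) ^ (-((1 - 2 * β) / 5))) + 1 / 64 * V := hy
    _ = B * (t - s) ^ (-((1 - 2 * β) / 5)) * X + 1 / 64 * V := by ring

end Pool.Agent.Helper7.NU
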