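import Pool.Agent.Helper7.NU.Cov

/-!
Module Jmp: a small increasing function with large jumps near sets of Hausdorff measure zero.
-/

open MeasureTheory Set Filter Topology
open scoped ENNReal

namespace Pool.Agent.Helper7.NU

theorem jumps {S : ℕ → Set ℝ} {β : ℕ → ℝ} (hβ : ∀ n, 0 < β n)
    (hS : ∀ n, μH[β n] (S n) = 0) {η : ℝ} (hη : 0 < η) :
    ∃ W : ℝ → ℝ, Monotone W ∧ (∀ x, 0 ≤ W x) ∧ (∀ x, W x ≤ η) ∧
      ∀ n, ∀ t ∈ S n, ∀ M δ : ℝ, 0 < δ → ∃ r, 0 < r ∧ r < δ ∧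
        ∀ s, s ≤ t - r → W s + M * r ^ β n ≤ W t := by
  obtain ⟨ε, hε, hεs⟩ := ENNReal.exists_pos_sum_of_countable
    (ENNReal.ofReal_pos.mpr hη).ne' (ℕ × ℕ)
  have hm0 : ∀ m : ℕ, (0 : ℝ) < (m : ℝ) + 1 := fun m => by positivity
  have hcov : ∀ p : ℕ × ℕ, ∃ x r : ℕ → ℝ, (∀ k, 0 < r k ∧ r k < 1 / ((p.2 : ℝ) + 1)) ∧
      Summable (fun k => r k ^ β p.1) ∧ ∑' k, r k ^ β p.1 ≤ (ε p : ℝ) / ((p.2 : ℝ) + 1) ∧
      ∀ t ∈ S p.1, ∃ k, x k ≤ t ∧ t < x k + r k := by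
    intro p
    have h1 : (0 : ℝ) < (ε p : ℝ) := by exact_mod_cast hε p
    exact cov (hβ p.1) (hS p.1) (div_pos h1 (hm0 p.2)) (one_div_pos.mpr (hm0 p.2))
  choose x r hr hsum htsum hmem using hcov
  -- the measure
  set w : (ℕ × ℕ) × ℕ → ℝ := fun i => ((i.1.2 : ℝ) + 1) * r i.1 i.2 ^ β i.1.1 with hw
  have hw0 : ∀ i, 0 ≤ w i := fun i =>
    mul_nonneg (hm0 _).le (Real.rpow_nonneg (hr i.1 i.2).1.le _)
  set ρ : Measure ℝ :=
    Measure.sum (fun i : (ℕ × ℕ) × ℕ => ENNReal.ofReal (w i) • Measure.dirac (x i.1 i.2)) with hρ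
  have hρu : ρ univ ≤ ENNReal.ofReal η := by
    rw [hρ, Measure.sum_apply _ MeasurableSet.univ]
    have h1 : ∀ i : (ℕ × ℕ) × ℕ, (ENNReal.ofReal (w i) • Measure.dirac (x i.1 i.2)) univ =
        ENNReal.ofReal (w i) := fun i => by
      rw [Measure.smul_apply, measure_univ, smul_eq_mul, mul_one]
    simp only [h1]
    rw [ENNReal.tsum_prod']
    refine le_trans (ENNReal.tsum_le_tsum fun p => ?_) hεs.le
    have h2 : Summable (fun k => w (p, k)) := by
      simp only [hw]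
      exact (hsum p).mul_left _
    rw [← ENNReal.ofReal_tsum_of_nonneg (fun k => hw0 (p, k)) h2]
    have h3 : ∑' k, w (p, k) ≤ (ε p : ℝ) := by
      have : ∑' k, w (p, k) = ((p.2 : ℝ) + 1) * ∑' k, r p k ^ β p.1 := by
        simp only [hw]
        exact tsum_mul_left
      rw [this]
      have h4 := mul_le_mul_of_nonneg_left (htsum p) (hm0 p.2).le
      rwa [mul_div_cancel₀ _ (hm0 p.2).ne'] at h4
    calc ENNReal.ofReal (∑' k, w (p, k)) ≤ ENNReal.ofReal (ε p : ℝ) := ENNReal.ofReal_le_ofReal h3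
      _ = (ε p : ℝ≥0∞) := ENNReal.ofReal_coe_nnreal
  have : IsFiniteMeasure ρ := ⟨lt_of_le_of_lt hρu ENNReal.ofReal_lt_top⟩
  set R : ℝ → ℝ := fun t => (ρ (Iic t)).toReal with hR
  have hRmono : Monotone R := by
    intro s t hst
    exact ENNReal.toReal_mono (measure_ne_top _ _) (measure_mono (Iic_subset_Iic.mpr hst))
  refine ⟨R, hRmono, fun t => ENNReal.toReal_nonneg, fun t => ?_, ?_⟩
  · refine ENNReal.toReal_le_of_le_ofReal hη.le ?_
    exact (measure_mono (subset_univ _)).trans hρu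
  have hRsub : ∀ s t : ℝ, s ≤ t → ∀ r : ℝ, ENNReal.ofReal r ≤ ρ (Ioc s t) → R s + r ≤ R t := by
    intro s t hst r hr
    have h1 : ρ (Iic t) = ρ (Iic s) + ρ (Ioc s t) := by
      rw [← Iic_union_Ioc_eq_Iic hst]
      refine measure_union ?_ measurableSet_Ioc
      rw [Set.disjoint_left]
      intro x hx hx'
      exact absurd hx'.1 (not_lt.mpr hx)
    have h2 : R t = R s + (ρ (Ioc s t)).toReal := by
      simp only [hR]
      rw [h1, ENNReal.toReal_add (measure_ne_top _ _) (measure_ne_top _ _)]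
    have h3 : r ≤ (ρ (Ioc s t)).toReal :=
      (ENNReal.ofReal_le_iff_le_toReal (measure_ne_top _ _)).mp hr
    linarith
  intro n t ht M δ hδ
  obtain ⟨m, hm⟩ := exists_nat_gt (max M (1 / δ))
  have hmM : M < m := lt_of_le_of_lt (le_max_left _ _) hm
  have hmδ : 1 / δ < m := lt_of_le_of_lt (le_max_right _ _) hm
  obtain ⟨k, hk1, hk2⟩ := hmem (n, m) t ht
  refine ⟨r (n, m) k, (hr (n, m) k).1, ?_, fun s hs => ?_⟩
  · refine (hr (n, m) k).2.trans ?_
    rw [div_lt_iff₀ hδ] at hmδ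
    rw [div_lt_iff₀ (hm0 m)]
    nlinarith
  · have hst : s ≤ t := by linarith [(hr (n, m) k).1]
    have h1 : ENNReal.ofReal (w ((n, m), k)) ≤ ρ (Ioc s t) := by
      rw [hρ, Measure.sum_apply _ measurableSet_Ioc]
      refine le_trans ?_ (ENNReal.le_tsum (((n, m), k) : (ℕ × ℕ) × ℕ))
      rw [Measure.smul_apply, Measure.dirac_apply' _ measurableSet_Ioc,
        indicator_of_mem (show x (n, m) k ∈ Ioc s t from ⟨by linarith, hk1⟩)]
      simp
    have h2 := hRsub s t hst _ h1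
    have h3 : M * r (n, m) k ^ β n ≤ w ((n, m), k) := by
      simp only [hw]
      exact mul_le_mul_of_nonneg_right (by linarith) (Real.rpow_nonneg (hr (n, m) k).1.le _)
    linarith

end Pool.Agent.Helper7.NU
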